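import Pool.Agent.Lib.MP_634427_lc.LD.NpB
import Pool.Agent.Lib.MP_634427_lc.Small.Canon

/-!
# Lists with a property in NP are given by witnesses of a relation
-/

namespace Pool.Agent.Lib.MP_634427_lc.Y

open Pool.Agent.Lib.MP_634427_lc
open Pool.Agent.Lib.MP_634427_lc.LD

/-- Decoding ignores what comes after a code. -/
private lemma decode_code_append (t : BT) (w : Word) : decode (code t ++ w) = t := by
  simp only [decode, List.foldr_append, foldr_code]
  rfl

/-- Lists with a property in NP are given by witnesses of a polynomial-time relation. -/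
theorem exists_canon {F : Set Word} (hF : InNP F) {M : Word → ℕ} (hM : PT M) :
    ∃ (Rel : Word × Word → Bool) (m : Word → ℕ) (z : Word × Word → List Word),
      PT Rel ∧ PT m ∧ PT z ∧
      (∀ y c : Word, c.length = m y → Rel (y, c) = true → code (enc (y, z (y, c))) ∈ F) ∧
      ∀ (y : Word) (Z : List Word), sz Z ≤ M y → code (enc (y, Z)) ∈ F →
        ∃ c : Word, c.length = m y ∧ Rel (y, c) = true := by
  obtain ⟨Rel2, m2, hRel2, hm2, hF2⟩ := Small.exists_rel hF
  obtain ⟨d, hd, hda⟩ : Small.HasDec (List Word) :=
    Small.hasDec_list (Small.hasDec_list Small.hasDec_bool)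
  let M1 : Word → ℕ := fun y => 2 * M y + 1
  have hM1 : PT M1 := PT.add (PT.mul (PT.const 2) hM) (PT.const 1)
  let z : Word × Word → List Word := fun c => d (decode (c.2.take (M1 c.1)))
  have hz : PT z := hd.comp (PT.decode (PT.take (hM1.comp PT.fst) PT.snd))
  let g : Word × Word → Word := fun c => code (enc (c.1, z c))
  have henc : PT (fun a : Word × List Word => (enc a : BT)) := ⟨_, .id, fun _ => rfl⟩
  have hg : PT g := PT.code (henc.comp (PT.pair PT.fst hz))
  -- a bound for the lengths of the certificates
  obtain ⟨k, hk⟩ := hm2.size_le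
  obtain ⟨j, hj⟩ := hg.size_le
  let bd : Word → ℕ := fun y => (((sz y + 2 * M1 y + 1) + 2) ^ j + 2) ^ k
  have hbd : PT bd := PT.pow (PT.add (PT.pow (PT.add (PT.add (PT.add (PT.size PT.id)
    (PT.mul (PT.const 2) hM1)) (PT.const 1)) (PT.const 2)) j) (PT.const 2)) k
  have hzt : ∀ (y u : Word), u.length = M1 y → ∀ v : Word, z (y, u ++ v) = z (y, u) := by
    intro y u hu v
    show d (decode ((u ++ v).take (M1 y))) = d (decode (u.take (M1 y)))
    rw [List.take_left' hu, List.take_of_length_le hu.le]
  have hle : ∀ (y u : Word), u.length = M1 y → m2 (g (y, u)) ≤ bd y := by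
    intro y u hu
    have h1 := hk (g (y, u))
    rw [sz_nat] at h1
    refine h1.trans (Nat.pow_le_pow_left ?_ k)
    have h2 := hj (y, u)
    have h3 := sz_word_le u
    have h4 : sz (y, u) ≤ sz y + 2 * M1 y + 1 := by
      rw [sz_pair, ← hu]
      omega
    have h5 : (sz (y, u) + 2) ^ j ≤ ((sz y + 2 * M1 y + 1) + 2) ^ j :=
      Nat.pow_le_pow_left (by omega) j
    omega
  let Rel : Word × Word → Bool := fun c =>
    Rel2 (g c, (c.2.drop (M1 c.1)).take (m2 (g c)))
  have hRel : PT Rel := hRel2.comp (PT.pair hg (PT.take (hm2.comp hg)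
    (PT.drop (hM1.comp PT.fst) PT.snd)))
  refine ⟨Rel, fun y => M1 y + bd y, z, hRel, PT.add hM1 hbd, hz, ?_, ?_⟩
  · intro y c hc0 hr
    have hc : c.length = M1 y + bd y := hc0
    have h1 : (c.take (M1 y)).length = M1 y := by
      rw [List.length_take]
      exact min_eq_left (by omega)
    have h2 : z (y, c) = z (y, c.take (M1 y)) := by
      have := hzt y (c.take (M1 y)) h1 (c.drop (M1 y))
      rwa [List.take_append_drop] at this
    have h3 : g (y, c) = g (y, c.take (M1 y)) := by
      show code (enc (y, z (y, c))) = code (enc (y, z (y, c.take (M1 y))))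
      rw [h2]
    have h4 : m2 (g (y, c)) ≤ bd y := by
      rw [h3]
      exact hle y _ h1
    refine (hF2 _).2 ⟨(c.drop (M1 y)).take (m2 (g (y, c))), ?_, hr⟩
    rw [List.length_take, List.length_drop]
    exact min_eq_left (by omega)
  · intro y Z hZ hZF
    have h0 : (code (enc Z)).length = 2 * sz Z + 1 := length_code _
    set u : Word := code (enc Z) ++ List.replicate (M1 y - (code (enc Z)).length) false with hu
    have hul : u.length = M1 y := by
      rw [hu, List.length_append, List.length_replicate]
      show _ = 2 * M y + 1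
      have : M1 y = 2 * M y + 1 := rfl
      omega
    have hzu : ∀ v : Word, z (y, u ++ v) = Z := by
      intro v
      rw [hzt y u hul v]
      show d (decode (u.take (M1 y))) = Z
      rw [List.take_of_length_le hul.le, hu, decode_code_append]
      exact hda Z
    obtain ⟨v, hv1, hv2⟩ := (hF2 _).1 hZF
    have hg1 : ∀ v : Word, g (y, u ++ v) = code (enc (y, Z)) := by
      intro v
      show code (enc (y, z (y, u ++ v))) = _
      rw [hzu]
    have hb : v.length ≤ bd y := by
      have h1 := hle y u hul
      have h2 := hg1 []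
      rw [List.append_nil] at h2
      rw [h2] at h1
      omega
    refine ⟨u ++ (v ++ List.replicate (bd y - v.length) false), ?_, ?_⟩
    · simp only [List.length_append, List.length_replicate]
      rw [hul]
      omega
    · show Rel2 (g (y, u ++ _), ((u ++ _).drop (M1 y)).take (m2 (g (y, u ++ _)))) = true
      rw [hg1, List.drop_left' hul, ← hv1, List.take_left' rfl]
      exact hv2

end Pool.Agent.Lib.MP_634427_lc.Y
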