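import Pool.Agent.Lib.MP_634427_lc.Y.Right

/-!
# There are right lists of polynomial size
-/

namespace Pool.Agent.Lib.MP_634427_lc.Y

open Pool.Agent.Lib.MP_634427_lc
open Pool.Agent.Lib.MP_634427_lc.LD

/-- The words of the sparse set up to the length of the queries form a right list. -/
theorem exists_right {E : Word × List Bool → Bool} {f : Word → Word × List Word} (hf : PT f)
    {A S : Set Word} (hS : Sparse S)
    (h : ∀ x, x ∈ A ↔ E ((f x).1, answerList S (f x).2) = true) :
    ∃ a : ℕ, ∀ n, ∃ Z : List Word, sz Z ≤ (n + 2) ^ a ∧ Right E f A n Z := by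
  classical
  obtain ⟨k, hk⟩ := hf.size_le
  obtain ⟨c, hc⟩ := hS
  -- a bound for the lengths of the queries
  have hPB : PB fun n => ((2 * n + 2) ^ k) ^ c + c := PB.add (PB.pow (PB.pow (PB.add
    (PB.mul (PB.const 2) PB.id) (PB.const 2)) k) c) (PB.const c)
  obtain ⟨a, ha⟩ : PB fun n => (((2 * n + 2) ^ k) ^ c + c) * (2 * (2 * n + 2) ^ k + 1) :=
    PB.mul hPB (PB.add (PB.mul (PB.const 2) (PB.pow (PB.add (PB.mul (PB.const 2) PB.id)
      (PB.const 2)) k)) (PB.const 1))
  refine ⟨a, fun n => ?_⟩
  set ℓ : ℕ := (2 * n + 2) ^ k with hℓ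
  have hfin : {w ∈ S | w.length ≤ ℓ}.Finite :=
    (List.finite_length_le Bool ℓ).subset fun w hw => hw.2
  set Z : List Word := hfin.toFinset.toList with hZ
  have hZm : ∀ w, w ∈ Z ↔ w ∈ S ∧ w.length ≤ ℓ := by
    intro w
    rw [hZ, Finset.mem_toList, Set.Finite.mem_toFinset]
    exact Iff.rfl
  have hZl : Z.length ≤ ℓ ^ c + c := by
    rw [hZ, Finset.length_toList, ← Set.ncard_eq_toFinset_card _ hfin]
    exact hc ℓ
  refine ⟨Z, ?_, ?_⟩
  · have h1 : sz Z ≤ Z.length * (2 * ℓ + 1) := by
      have : ∀ l : List Word, (∀ w ∈ l, w.length ≤ ℓ) → sz l ≤ l.length * (2 * ℓ + 1) := by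
        intro l
        induction l with
        | nil => intro _; simp
        | cons w l ih =>
          intro hl
          have h2 := ih fun v hv => hl v (List.mem_cons_of_mem _ hv)
          have h3 := hl w List.mem_cons_self
          have h4 := sz_word_le w
          rw [sz_cons, List.length_cons, Nat.add_mul, one_mul]
          omega
      exact this Z fun w hw => ((hZm w).1 hw).2
    refine (h1.trans (Nat.mul_le_mul_right _ hZl)).trans ?_
    exact ha n
  · intro x hx
    rw [h x]
    have h1 : answerList S (f x).2 = (f x).2.map fun w => mem1 Z w := by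
      unfold answerList
      refine List.map_congr_left fun w hw => ?_
      rw [Bool.eq_iff_iff, decide_eq_true_eq, mem1_iff, hZm]
      refine ⟨fun h2 => ⟨h2, ?_⟩, fun h2 => h2.1⟩
      have h3 : sz (f x).2 ≤ sz (f x) := by
        rw [sz_prod (f x)]
        omega
      have h4 := sz_mem_le hw
      have h5 : w.length ≤ sz w := length_le_sz w
      have h6 := hk x
      have h7 : (sz x + 2) ^ k ≤ (2 * n + 2) ^ k := by
        refine Nat.pow_le_pow_left ?_ k
        have := sz_word_le x
        omega
      omega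
    rw [h1]

end Pool.Agent.Lib.MP_634427_lc.Y
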