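import Pool.Agent.Lib.MP_634427_lc.Y.RightNp
import Pool.Agent.Lib.MP_634427_lc.Y.RightEx
import Pool.Agent.Lib.MP_634427_lc.Y.Canon

/-!
# The advice: a relation for right lists
-/

namespace Pool.Agent.Lib.MP_634427_lc.Y

open Pool.Agent.Lib.MP_634427_lc
open Pool.Agent.Lib.MP_634427_lc.LD

/-- The advice for the words of length at most `n`: a polynomial-time relation `Rel (0^n, c)`, such
that each `c` of length `m (0^n)` with the relation gives a right list, and there is such a `c`. -/
theorem exists_advice (hco : ∀ L : Set Word, InNP L → InNP Lᶜ)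
    {E : Word × List Bool → Bool} (hE : PT E) {f : Word → Word × List Word} (hf : PT f)
    {A S : Set Word} (hA : InNP A) (hS : Sparse S)
    (h : ∀ x, x ∈ A ↔ E ((f x).1, answerList S (f x).2) = true) :
    ∃ (Rel : Word × Word → Bool) (m : Word → ℕ) (z : Word × Word → List Word),
      PT Rel ∧ PT m ∧ PT z ∧
      (∀ y c : Word, c.length = m y → Rel (y, c) = true → Right E f A y.length (z (y, c))) ∧
      ∀ y : Word, ∃ c : Word, c.length = m y ∧ Rel (y, c) = true := by
  obtain ⟨F, hF, hFd⟩ := exists_rightSet hco hE hf hA 1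
  obtain ⟨a, ha⟩ := exists_right hf hS h
  have hM : PT fun y : Word => (y.length + 2) ^ a :=
    PT.pow (PT.add (PT.length PT.id) (PT.const 2)) a
  obtain ⟨Rel, m, z, hRel, hm, hz, h1, h2⟩ := exists_canon hF hM
  refine ⟨Rel, m, z, hRel, hm, hz, fun y c hc hr => ?_, fun y => ?_⟩
  · have := (hFd y (z (y, c))).1 (h1 y c hc hr)
    rwa [pow_one] at this
  · obtain ⟨Z, hZ1, hZ2⟩ := ha y.length
    refine h2 y Z hZ1 ((hFd y Z).2 ?_)
    rwa [pow_one]

end Pool.Agent.Lib.MP_634427_lc.Y
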