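import Pool.Agent.Lib.MP_634427_lc.LD.Arith

/-!
# The parameters
-/

namespace Pool.Agent.Lib.MP_634427_lc.Y

open Pool.Agent.Lib.MP_634427_lc LD

private lemma root_pow_le (D n : ℕ) (hD : 1 ≤ D) : LD.root D n ^ D ≤ n := by
  unfold LD.root
  exact Nat.findGreatest_spec (P := fun t => t ^ D ≤ n) (Nat.zero_le n)
    (by simp [Nat.zero_pow (by omega : 0 < D)])

private lemma le_root (D n T : ℕ) (hD : 1 ≤ D) (h : T ^ D ≤ n) : T ≤ LD.root D n := by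
  unfold LD.root
  refine Nat.le_findGreatest (P := fun t => t ^ D ≤ n) ?_ h
  calc T = T ^ 1 := (pow_one T).symm
    _ ≤ T ^ D := by
        rcases Nat.eq_zero_or_pos T with h0 | h0
        · subst h0; simp
        · exact Nat.pow_le_pow_right h0 hD
    _ ≤ n := h

private lemma lt_root_succ (D n : ℕ) (hD : 1 ≤ D) : n < (LD.root D n + 1) ^ D := by
  by_contra hc
  push Not at hc
  have := le_root D n (LD.root D n + 1) hD hc
  omega

private lemma exists_pow_lt (e : ℕ) : ∃ T : ℕ, ∀ t ≥ T, (t + 2) ^ e < 2 ^ t := by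
  have h := tendsto_pow_const_div_const_pow_of_one_lt e (r := (2 : ℝ)) (by norm_num)
  have h2 := (h.eventually (gt_mem_nhds (show (0 : ℝ) < 1 / 4 by norm_num)))
  obtain ⟨T, hT⟩ := Filter.eventually_atTop.1 h2
  refine ⟨T, fun t ht => ?_⟩
  have h3 := hT (t + 2) (by omega)
  rw [div_lt_iff₀ (by positivity)] at h3
  have h4 : ((t + 2 : ℕ) : ℝ) ^ e < (2 : ℝ) ^ t := by
    calc ((t + 2 : ℕ) : ℝ) ^ e < 1 / 4 * 2 ^ (t + 2) := h3
      _ = 2 ^ t := by rw [pow_add]; ring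
  exact_mod_cast h4

private lemma key1 (t b M R N s1 s : ℕ) (ht : 20 ≤ t) (hR : R = b * t ^ 2 + t)
    (hN : N = (M + 1) * t ^ 2) (hs1 : s1 = M * (2 * t + 1))
    (hs : s = N * (b * (2 * t + 1) + 2) + R * (s1 + 1) + 1) : 2 * s + 2 ≤ N * R := by
  have hR1 : 1 ≤ R := by rw [hR]; omega
  have ht2 : 8 * t + 12 ≤ t ^ 2 := by nlinarith
  -- first half
  have h1 : 4 * (N * (b * (2 * t + 1) + 2)) ≤ N * R := by
    have : 4 * (b * (2 * t + 1) + 2) ≤ R := by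
      rw [hR]
      have := Nat.mul_le_mul_left b ht2
      nlinarith
    calc 4 * (N * (b * (2 * t + 1) + 2)) = N * (4 * (b * (2 * t + 1) + 2)) := by ring
      _ ≤ N * R := Nat.mul_le_mul_left N this
  have h2 : 4 * (R * (s1 + 1)) + 8 ≤ N * R := by
    have h3 : 4 * (s1 + 1) + 8 ≤ N := by
      rw [hs1, hN]
      have := Nat.mul_le_mul_left M ht2
      nlinarith
    calc 4 * (R * (s1 + 1)) + 8 ≤ 4 * (R * (s1 + 1)) + 8 * R := by omega
      _ = (4 * (s1 + 1) + 8) * R := by ring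
      _ ≤ N * R := Nat.mul_le_mul_right R h3
  omega

private lemma key2 (t b M R N s1 s ℓ : ℕ) (ht : 20 ≤ t)
    (hb : (b + 1) * t ^ 5 ≤ ℓ) (hR : R = b * t ^ 2 + t)
    (hN : N = (M + 1) * t ^ 2) (hs1 : s1 = M * (2 * t + 1))
    (hs : s = N * (b * (2 * t + 1) + 2) + R * (s1 + 1) + 1) :
    2 * (s + N + R + 2 * (N * R)) + 8 + 2 ≤ (M + 1) * ℓ ∧
      2 * (s1 + N * (b * (2 * t + 1) + 4)) + 4 + 2 ≤
        2 * (s + N + R + 2 * (N * R)) + 8 + 2 := by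
  have hR1 : 1 ≤ R := by rw [hR]; omega
  have hN1 : 1 ≤ N := by rw [hN]; exact Nat.mul_pos (by omega) (by positivity)
  have hNR1 : R ≤ N * R := Nat.le_mul_of_pos_left R hN1
  have hNR2 : N ≤ N * R := Nat.le_mul_of_pos_right N hR1
  have h1 := key1 t b M R N s1 s ht hR hN hs1 hs
  have hRb : R ≤ (b + 1) * t ^ 2 := by
    rw [hR]; nlinarith
  have hNR : N * R ≤ (M + 1) * ((b + 1) * t ^ 4) := by
    calc N * R ≤ N * ((b + 1) * t ^ 2) := Nat.mul_le_mul_left N hRb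
      _ = (M + 1) * ((b + 1) * t ^ 4) := by rw [hN]; ring
  constructor
  · calc 2 * (s + N + R + 2 * (N * R)) + 8 + 2 ≤ 17 * (N * R) := by omega
      _ ≤ 17 * ((M + 1) * ((b + 1) * t ^ 4)) := Nat.mul_le_mul_left 17 hNR
      _ ≤ t * ((M + 1) * ((b + 1) * t ^ 4)) := Nat.mul_le_mul_right _ (by omega)
      _ = (M + 1) * ((b + 1) * t ^ 5) := by ring
      _ ≤ (M + 1) * ℓ := Nat.mul_le_mul_left _ hb
  · have h2 : s1 ≤ R * (s1 + 1) := by nlinarith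
    have h3 : N * (b * (2 * t + 1) + 4) = N * (b * (2 * t + 1) + 2) + 2 * N := by ring
    rw [h3]
    omega

/-- The inequalities for the parameters, `ℓ` is the length of the instance. The last statement
bounds the size of the questions. Proof: as `LD.arith` (file `LD/Arith.lean`; its lemmas are
private, copy them). With `t = root (5 q + 1) ℓ`, `t ^ (5 q + 1) ≤ ℓ`, `C * 11 ^ p ≤ t`:
`((b + 1) * t ^ 5) ^ q ≤ C * 11 ^ p * ℓ ^ p * t ^ (5 q) ≤ ℓ ^ p * t ^ (5 q + 1) ≤ ℓ ^ (p + 1) ≤ ℓ ^ q`,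
so `(b + 1) * t ^ 5 ≤ ℓ`; `M + 1 ≤ C * (5 ℓ + 6) ^ r`; everything polynomial in `ℓ` is smaller
than `2 ^ t`. -/
theorem arith2 (q p r C cm : ℕ) (hpq : p < q) (β μ : ℕ → ℕ)
    (hβ : ∀ n, (β n + 1) ^ q ≤ C * (n + 1) ^ p) (hμ : ∀ n, (μ n + 1) ^ q ≤ C * (n + 1) ^ r) :
    ∃ n0, ∀ ℓ ≥ n0, ∀ t b M R N s1 s : ℕ, t = root (5 * q + 1) ℓ → b = β (5 * ℓ + 5) →
      M = μ (5 * ℓ + 5) → R = b * t ^ 2 + t → N = (M + 1) * t ^ 2 → s1 = M * (2 * t + 1) →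
      s = N * (b * (2 * t + 1) + 2) + R * (s1 + 1) + 1 →
      1 ≤ t ∧ 1 ≤ R ∧ 2 * s + 2 ≤ N * R ∧ 4 * ℓ + R * (16 * t + 12) + 5 ≤ 5 * ℓ + 5 ∧
      N * b < 2 ^ t ∧ R < 2 ^ t ∧ (ℓ + 2) ^ cm < 2 ^ t ∧
      2 * (s + N + R + 2 * (N * R)) + 8 + 2 ≤ (M + 1) * ℓ ∧
      2 * (s1 + N * (b * (2 * t + 1) + 4)) + 4 + 2 ≤ (M + 1) * ℓ := by
  obtain ⟨T1, hT1⟩ := exists_pow_lt (5 * q + 1)
  obtain ⟨T2, hT2⟩ := exists_pow_lt ((5 * q + 1) * cm)
  obtain ⟨T3, hT3⟩ := exists_pow_lt ((5 * q + 2) * r + (5 * q + 1) + 3)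
  refine ⟨(T1 + T2 + T3 + 20 + C * 11 ^ p) ^ (5 * q + 1), ?_⟩
  intro ℓ hl t b M R N s1 s ht hb hM hR hN hs1 hs
  have hD : 1 ≤ 5 * q + 1 := by omega
  have htT : T1 + T2 + T3 + 20 + C * 11 ^ p ≤ t := by rw [ht]; exact le_root _ ℓ _ hD hl
  have htn : t ^ (5 * q + 1) ≤ ℓ := by rw [ht]; exact root_pow_le _ ℓ hD
  have hnt : ℓ < (t + 1) ^ (5 * q + 1) := by rw [ht]; exact lt_root_succ _ ℓ hD
  clear ht
  have ht20 : 20 ≤ t := by omega
  have htc : C * 11 ^ p ≤ t := by omega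
  have hC : C ≤ t := le_trans (Nat.le_mul_of_pos_right C (by positivity)) htc
  have hl1 : 1 ≤ ℓ := le_trans (Nat.one_le_pow _ _ (by omega)) htn
  have hq0 : q ≠ 0 := by omega
  have hbq : (b + 1) ^ q ≤ C * (11 ^ p * ℓ ^ p) := by
    calc (b + 1) ^ q ≤ C * (5 * ℓ + 5 + 1) ^ p := by
          have := hβ (5 * ℓ + 5)
          rw [← hb] at this
          exact this
      _ ≤ C * (11 * ℓ) ^ p := Nat.mul_le_mul_left C (Nat.pow_le_pow_left (by omega) p)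
      _ = C * (11 ^ p * ℓ ^ p) := by rw [mul_pow]
  have hbl : (b + 1) * t ^ 5 ≤ ℓ := by
    have h1 : ((b + 1) * t ^ 5) ^ q ≤ ℓ ^ q := by
      calc ((b + 1) * t ^ 5) ^ q = (b + 1) ^ q * t ^ (5 * q) := by
            rw [mul_pow, ← pow_mul]
        _ ≤ C * (11 ^ p * ℓ ^ p) * t ^ (5 * q) := Nat.mul_le_mul_right _ hbq
        _ = (C * 11 ^ p) * (ℓ ^ p * t ^ (5 * q)) := by ring
        _ ≤ t * (ℓ ^ p * t ^ (5 * q)) := Nat.mul_le_mul_right _ htc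
        _ = ℓ ^ p * t ^ (5 * q + 1) := by ring
        _ ≤ ℓ ^ p * ℓ := Nat.mul_le_mul_left _ htn
        _ = ℓ ^ (p + 1) := (pow_succ ℓ p).symm
        _ ≤ ℓ ^ q := Nat.pow_le_pow_right hl1 hpq
    exact (Nat.pow_le_pow_iff_left hq0).1 h1
  have hl2' : ℓ ≤ (t + 2) ^ (5 * q + 1) := hnt.le.trans (Nat.pow_le_pow_left (by omega) _)
  have hl2 : ℓ < 2 ^ t := lt_of_le_of_lt hl2' (hT1 t (by omega))
  have hR1 : 1 ≤ R := by rw [hR]; omega
  have hRb : R ≤ (b + 1) * t ^ 2 := by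
    rw [hR]; nlinarith
  obtain ⟨hX, hY⟩ := key2 t b M R N s1 s ℓ ht20 hbl hR hN hs1 hs
  refine ⟨by omega, hR1, key1 t b M R N s1 s ht20 hR hN hs1 hs, ?_, ?_, ?_, ?_, hX, hY.trans hX⟩
  · have h1 : R * (16 * t + 12) ≤ ℓ := by
      calc R * (16 * t + 12) ≤ ((b + 1) * t ^ 2) * (t * t) :=
            Nat.mul_le_mul hRb (by nlinarith)
        _ = (b + 1) * t ^ 4 := by ring
        _ ≤ (b + 1) * t ^ 5 :=
            Nat.mul_le_mul_left _ (Nat.pow_le_pow_right (by omega) (by norm_num))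
        _ ≤ ℓ := hbl
    omega
  · have hMq : M + 1 ≤ t * ((t + 2) ^ (5 * q + 2)) ^ r := by
      calc M + 1 ≤ (M + 1) ^ q := Nat.le_self_pow hq0 _
        _ ≤ C * (5 * ℓ + 5 + 1) ^ r := by
            have := hμ (5 * ℓ + 5)
            rw [← hM] at this
            exact this
        _ ≤ t * ((t + 2) ^ (5 * q + 2)) ^ r := by
            refine Nat.mul_le_mul hC (Nat.pow_le_pow_left ?_ r)
            calc 5 * ℓ + 5 + 1 ≤ 11 * ℓ := by omega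
              _ ≤ (t + 2) * (t + 2) ^ (5 * q + 1) := Nat.mul_le_mul (by omega) hl2'
              _ = (t + 2) ^ (5 * q + 2) := (pow_succ' _ _).symm
    have hbl' : b ≤ ℓ := by
      calc b ≤ (b + 1) * 1 := by omega
        _ ≤ (b + 1) * t ^ 5 := Nat.mul_le_mul_left _ (Nat.one_le_pow _ _ (by omega))
        _ ≤ ℓ := hbl
    refine lt_of_le_of_lt ?_ (hT3 t (by omega))
    calc N * b ≤ (t * ((t + 2) ^ (5 * q + 2)) ^ r * t ^ 2) * (t + 2) ^ (5 * q + 1) := by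
          rw [hN]
          exact Nat.mul_le_mul (Nat.mul_le_mul_right _ hMq) (hbl'.trans hl2')
      _ = t ^ 3 * ((t + 2) ^ ((5 * q + 2) * r) * (t + 2) ^ (5 * q + 1)) := by
          rw [← pow_mul]
          ring
      _ ≤ (t + 2) ^ 3 * ((t + 2) ^ ((5 * q + 2) * r) * (t + 2) ^ (5 * q + 1)) :=
          Nat.mul_le_mul_right _ (Nat.pow_le_pow_left (by omega) 3)
      _ = (t + 2) ^ ((5 * q + 2) * r + (5 * q + 1) + 3) := by
          rw [← pow_add, ← pow_add]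
          congr 1
          omega
  · refine lt_of_le_of_lt ?_ hl2
    calc R ≤ (b + 1) * t ^ 2 := hRb
      _ ≤ (b + 1) * t ^ 5 :=
          Nat.mul_le_mul_left _ (Nat.pow_le_pow_right (by omega) (by norm_num))
      _ ≤ ℓ := hbl
  · calc (ℓ + 2) ^ cm ≤ ((t + 2) ^ (5 * q + 1)) ^ cm := by
          apply Nat.pow_le_pow_left
          have h1 : (t + 1) ^ (5 * q + 1) < (t + 2) ^ (5 * q + 1) :=
            Nat.pow_lt_pow_left (by omega) (by omega)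
          omega
      _ = (t + 2) ^ ((5 * q + 1) * cm) := by rw [← pow_mul]
      _ < 2 ^ t := hT2 t (by omega)

end Pool.Agent.Lib.MP_634427_lc.Y
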