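import Pool.Agent.Lib.MP_634427_lc.LD.Arith

/-!
# The length of the padded instance
-/

namespace Pool.Agent.Lib.MP_634427_lc.Y

open Pool.Agent.Lib.MP_634427_lc LD

private lemma y_root_pow_le (D n : ℕ) (hD : 1 ≤ D) : root D n ^ D ≤ n := by
  unfold root
  exact Nat.findGreatest_spec (P := fun t => t ^ D ≤ n) (Nat.zero_le n)
    (by simp [Nat.zero_pow (by omega : 0 < D)])

private lemma y_le_root (D n T : ℕ) (hD : 1 ≤ D) (h : T ^ D ≤ n) : T ≤ root D n := by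
  unfold root
  refine Nat.le_findGreatest (P := fun t => t ^ D ≤ n) ?_ h
  calc T = T ^ 1 := (pow_one T).symm
    _ ≤ T ^ D := by
        rcases Nat.eq_zero_or_pos T with h0 | h0
        · subst h0; simp
        · exact Nat.pow_le_pow_right h0 hD
    _ ≤ n := h

private lemma y_lt_root_succ (D n : ℕ) (hD : 1 ≤ D) : n < (root D n + 1) ^ D := by
  by_contra hc
  push Not at hc
  have := y_le_root D n (root D n + 1) hD hc
  omega

private lemma y_exists_pow_lt (e : ℕ) : ∃ T : ℕ, ∀ t ≥ T, (t + 2) ^ e < 2 ^ t := by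
  have h := tendsto_pow_const_div_const_pow_of_one_lt e (r := (2 : ℝ)) (by norm_num)
  have h2 := (h.eventually (gt_mem_nhds (show (0 : ℝ) < 1 / 4 by norm_num)))
  obtain ⟨T, hT⟩ := Filter.eventually_atTop.1 h2
  refine ⟨T, fun t ht => ?_⟩
  have h3 := hT (t + 2) (by omega)
  rw [div_lt_iff₀ (by positivity)] at h3
  have h4 : ((t + 2 : ℕ) : ℝ) ^ e < (2 : ℝ) ^ t := by
    calc ((t + 2 : ℕ) : ℝ) ^ e < 1 / 4 * 2 ^ (t + 2) := h3
      _ = 2 ^ t := by rw [pow_add]; ring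
  exact_mod_cast h4

private lemma y_expo {q r c e D : ℕ} (hq : 1 ≤ q) (hD : 8 ≤ D)
    (hc : c < (D + 1) * e) (hr : 8 * e * r ≤ c * q) : 2 * r + 2 * q + 1 ≤ D * q := by
  have h1 : e * (8 * r) < e * ((D + 1) * q) := by
    calc e * (8 * r) = 8 * e * r := by ring
      _ ≤ c * q := hr
      _ < ((D + 1) * e) * q := (Nat.mul_lt_mul_right (by omega)).2 hc
      _ = e * ((D + 1) * q) := by ring
  have h2 : 8 * r < (D + 1) * q := lt_of_mul_lt_mul_left h1 (Nat.zero_le e)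
  have h3 : 8 * q ≤ D * q := Nat.mul_le_mul_right q hD
  have h4 : (D + 1) * q = D * q + q := by ring
  omega

/-- The length `k = root (c / e) n` of the instance for words of length `n`. Proof: let
`D = c / e`, so `D * e ≤ c`, `c < (D + 1) * e`, `D ≥ 8`. `k ^ D ≤ n < (k + 1) ^ D`, so
`n + 2 ≤ (k + 2) ^ D` and `(n + 2) ^ e ≤ (k + 2) ^ (D e) ≤ (k + 2) ^ c`; `(k + 1) ^ D < 2 ^ (k - 1)`
for large `k`. Last statement: from `8 e r ≤ c q` and `8 e ≤ c` one gets `2 r + 2 q + 1 ≤ D q`, and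
`(X ^ 2) ^ q ≤ ((M + 1) ^ q) ^ 2 * k ^ (2 q) ≤ C ^ 2 * 11 ^ (2 r) * k ^ (2 r + 2 q) ≤ k ^ (D q) ≤ n ^ q`
for `k ≥ C ^ 2 * 11 ^ (2 r)`. -/
theorem arith3 (q r C c e n0 : ℕ) (hq : 1 ≤ q) (he : 1 ≤ e) (hc : 8 * e ≤ c)
    (hr : 8 * e * r ≤ c * q) (μ : ℕ → ℕ) (hμ : ∀ n, (μ n + 1) ^ q ≤ C * (n + 1) ^ r) :
    ∃ n1, ∀ n ≥ n1, ∀ k : ℕ, k = root (c / e) n → n0 ≤ k ∧ 1 ≤ k ∧ n < 2 ^ (k - 1) ∧
      (n + 2) ^ e ≤ (k + 2) ^ c ∧ ∀ X, X ≤ (μ (5 * k + 5) + 1) * k → X ^ 2 ≤ n + 2 := by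
  set D := c / e with hDdef
  have hDc : D * e ≤ c := Nat.div_mul_le_self c e
  have hcD : c < (D + 1) * e := by
    have h1 := Nat.div_add_mod c e
    have h2 := Nat.mod_lt c he
    calc c = e * D + c % e := h1.symm
      _ < e * D + e := by omega
      _ = (D + 1) * e := by ring
  have hD : 8 ≤ D := (Nat.le_div_iff_mul_le (by omega)).2 hc
  have hexp := y_expo hq hD hcD hr
  obtain ⟨T, hT⟩ := y_exists_pow_lt D
  refine ⟨(T + 2 + n0 + C ^ 2 * 11 ^ (2 * r)) ^ D, ?_⟩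
  intro n hn k hk
  have hkT : T + 2 + n0 + C ^ 2 * 11 ^ (2 * r) ≤ k := by
    rw [hk]; exact y_le_root _ n _ (by omega) hn
  have hkn : k ^ D ≤ n := by rw [hk]; exact y_root_pow_le _ n (by omega)
  have hnk : n < (k + 1) ^ D := by rw [hk]; exact y_lt_root_succ _ n (by omega)
  clear hk
  have hkC : C ^ 2 * 11 ^ (2 * r) ≤ k := by omega
  refine ⟨by omega, by omega, ?_, ?_, ?_⟩
  · have h1 := hT (k - 1) (by omega)
    have h2 : k - 1 + 2 = k + 1 := by omega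
    rw [h2] at h1
    exact hnk.trans h1
  · have h1 : (k + 1) ^ D < (k + 2) ^ D := Nat.pow_lt_pow_left (by omega) (by omega)
    have h2 : n + 2 ≤ (k + 2) ^ D := by omega
    calc (n + 2) ^ e ≤ ((k + 2) ^ D) ^ e := Nat.pow_le_pow_left h2 e
      _ = (k + 2) ^ (D * e) := (pow_mul _ _ _).symm
      _ ≤ (k + 2) ^ c := Nat.pow_le_pow_right (by omega) hDc
  · intro X hX
    have h1 : (X ^ 2) ^ q ≤ n ^ q := by
      calc (X ^ 2) ^ q ≤ (((μ (5 * k + 5) + 1) * k) ^ 2) ^ q :=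
            Nat.pow_le_pow_left (Nat.pow_le_pow_left hX 2) q
        _ = ((μ (5 * k + 5) + 1) ^ q) ^ 2 * k ^ (2 * q) := by
            rw [← pow_mul, ← pow_mul, mul_pow, mul_comm q 2]
        _ ≤ (C * (5 * k + 5 + 1) ^ r) ^ 2 * k ^ (2 * q) :=
            Nat.mul_le_mul_right _ (Nat.pow_le_pow_left (hμ (5 * k + 5)) 2)
        _ ≤ (C * (11 * k) ^ r) ^ 2 * k ^ (2 * q) :=
            Nat.mul_le_mul_right _ (Nat.pow_le_pow_left (Nat.mul_le_mul_left C
              (Nat.pow_le_pow_left (by omega) r)) 2)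
        _ = (C ^ 2 * 11 ^ (2 * r)) * k ^ (2 * r + 2 * q) := by
            rw [mul_pow, mul_pow, mul_pow, ← pow_mul, ← pow_mul, pow_add, mul_comm r 2]
            ring
        _ ≤ k * k ^ (2 * r + 2 * q) := Nat.mul_le_mul_right _ hkC
        _ = k ^ (2 * r + 2 * q + 1) := by rw [pow_succ, mul_comm]
        _ ≤ k ^ (D * q) := Nat.pow_le_pow_right (by omega) hexp
        _ = (k ^ D) ^ q := pow_mul _ _ _
        _ ≤ n ^ q := Nat.pow_le_pow_left hkn q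
    have h2 := (Nat.pow_le_pow_iff_left (by omega : q ≠ 0)).1 h1
    omega

end Pool.Agent.Lib.MP_634427_lc.Y
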