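import Pool.Agent.Lib.MP_634427_lc.Y.Defs
import Pool.Agent.Lib.MP_634427_lc.LD.Bnd
import Pool.Agent.Lib.MP_634427_lc.Low

/-!
# Bounds for the reductions, with two exponents
-/

namespace Pool.Agent.Lib.MP_634427_lc.Y

open Pool.Agent.Lib.MP_634427_lc LD

/-- Bounds for a reduction which are computable in polynomial time. -/
structure Bounds2 (E : Word × List Bool → Bool) (q p r : ℕ) (A S : Set Word)
    (f : Word → Word × List Word) (β μ : ℕ → ℕ) (C : ℕ) : Prop where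
  ptf : PT f
  ptβ : PT β
  ptμ : PT μ
  monβ : Monotone β
  monμ : Monotone μ
  powβ : ∀ n, (β n + 1) ^ q ≤ C * (n + 1) ^ p
  powμ : ∀ n, (μ n + 1) ^ q ≤ C * (n + 1) ^ r
  len : ∀ x, (f x).1.length + (f x).2.length ≤ β x.length
  den : ∀ x, ∀ w ∈ (f x).2, {v ∈ S | v.length ≤ w.length}.ncard ≤ μ x.length
  iff : ∀ x, x ∈ A ↔ E ((f x).1, answerList S (f x).2) = true

/-- The largest `b` with `b ^ q ≤ c * (n + 1) ^ p`. -/
private def bnRoot (q p c n : ℕ) : ℕ :=
  Nat.findGreatest (fun b => decide (b ^ q ≤ c * (n + 1) ^ p) = true) (c * (n + 1) ^ p)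

private lemma bnRoot_pt (q p c : ℕ) : PT (bnRoot q p c) :=
  PT.findGreatest (γ := ℕ) (p := fun n b => decide (b ^ q ≤ c * (n + 1) ^ p))
    (n := fun n => c * (n + 1) ^ p)
    (PT.le (PT.pow PT.snd q) (PT.mul (PT.const c) (PT.pow (PT.succ PT.fst) p)))
    (PT.mul (PT.const c) (PT.pow (PT.succ PT.id) p))

private lemma bnRoot_pow {q : ℕ} (hq : 0 < q) (p c n : ℕ) :
    bnRoot q p c n ^ q ≤ c * (n + 1) ^ p := by
  have h : decide (bnRoot q p c n ^ q ≤ c * (n + 1) ^ p) = true :=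
    Nat.findGreatest_spec (P := fun b => decide (b ^ q ≤ c * (n + 1) ^ p) = true) (m := 0)
      (Nat.zero_le _) (by simp [Nat.pos_iff_ne_zero.1 hq])
  exact of_decide_eq_true h

private lemma le_bnRoot {q : ℕ} (hq : 0 < q) {p c n b : ℕ} (h : b ^ q ≤ c * (n + 1) ^ p) :
    b ≤ bnRoot q p c n :=
  Nat.le_findGreatest ((Nat.le_self_pow (by omega) b).trans h) (decide_eq_true h)

private lemma bnRoot_mono {q : ℕ} (hq : 0 < q) (p c : ℕ) : Monotone (bnRoot q p c) := by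
  intro m n hmn
  refine le_bnRoot hq ((bnRoot_pow hq p c m).trans (Nat.mul_le_mul_left _ ?_))
  exact Nat.pow_le_pow_left (by omega) p

private lemma bnRoot_succ_pow {q : ℕ} (hq : 0 < q) (p c n : ℕ) :
    (bnRoot q p c n + 1) ^ q ≤ 2 ^ q * (c + 1) * (n + 1) ^ p := by
  have h1 := bnRoot_pow hq p c n
  have h2 : 0 < (n + 1) ^ p := by positivity
  have h3 : 0 < 2 ^ q := by positivity
  rcases Nat.eq_zero_or_pos (bnRoot q p c n) with h0 | h0
  · rw [h0, zero_add, one_pow]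
    exact Nat.succ_le_of_lt (Nat.mul_pos (Nat.mul_pos h3 (Nat.succ_pos c)) h2)
  · calc (bnRoot q p c n + 1) ^ q ≤ (2 * bnRoot q p c n) ^ q := Nat.pow_le_pow_left (by omega) q
      _ = 2 ^ q * bnRoot q p c n ^ q := Nat.mul_pow _ _ _
      _ ≤ 2 ^ q * (c * (n + 1) ^ p) := Nat.mul_le_mul_left _ h1
      _ ≤ 2 ^ q * ((c + 1) * (n + 1) ^ p) :=
          Nat.mul_le_mul_left _ (Nat.mul_le_mul_right _ (Nat.le_succ c))
      _ = 2 ^ q * (c + 1) * (n + 1) ^ p := (Nat.mul_assoc _ _ _).symm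

/-- Low reductions have such bounds. Proof: as `LD.exists_bounds` (file `LD/Bnd.lean`; copy
`bdRoot` and its lemmas, which are private). -/
theorem exists_bounds2 {E : Word × List Bool → Bool} {q p r : ℕ} {A S : Set Word} (hq : 0 < q)
    (h : LowReducible E q p r A S) : ∃ f β μ C, Bounds2 E q p r A S f β μ C := by
  obtain ⟨f, c, hf, hx⟩ := h
  exact ⟨f, bnRoot q p c, bnRoot q r c, 2 ^ q * (c + 1), hf, bnRoot_pt q p c, bnRoot_pt q r c,
    bnRoot_mono hq p c, bnRoot_mono hq r c, bnRoot_succ_pow hq p c, bnRoot_succ_pow hq r c,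
    fun x => le_bnRoot hq (hx x).1, fun x w hw => le_bnRoot hq ((hx x).2.1 w hw),
    fun x => (hx x).2.2⟩

end Pool.Agent.Lib.MP_634427_lc.Y
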