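import Pool.Agent.Lib.MP_634427_lc.LD.RunDefs
import Pool.Agent.Lib.MP_634427_lc.LD.RunA
import Pool.Agent.Lib.MP_634427_lc.LD.RunB
import Pool.Agent.Lib.MP_634427_lc.LD.Inv

/-!
# The run, without bounds for the questions
-/

namespace Pool.Agent.Lib.MP_634427_lc.Y

open Pool.Agent.Lib.MP_634427_lc LD

/-- What is needed of the parameters for the run. -/
structure Core (P : Par) (E : Word × List Bool → Bool) : Prop where
  one : ∀ y : Word, P.n0 ≤ y.length → 1 ≤ P.R y
  rep : ∀ y : Word, P.n0 ≤ y.length →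
    ∃ D : Word, D.length = P.N y * P.R y ∧ ¬ Rep E (P.s y) (P.N y) (P.R y) D
  fail : ∀ (y : Word) (V : List Word) (D : Word) (ℓ : ℕ), P.n0 ≤ y.length → V.length = P.R y →
    V.Nodup → ℓ ≤ P.m y → (∀ v ∈ V, v.length = ℓ) → D.length = P.N y * P.R y →
    ¬ Rep E (P.s y) (P.N y) (P.R y) D →
    ∃ i < P.R y, ¬ K1 E (q1 P.f y V (P.N y) (P.R y) (P.s1 y) D i)
  pass : ∀ (y : Word) (V : List Word) (D : Word) (ℓ : ℕ), P.n0 ≤ y.length → V.length = P.R y →
    V.Nodup → ℓ ≤ P.m y → (∀ v ∈ V, v.length = ℓ) → D.length = P.N y * P.R y →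
    ∀ i < P.R y, ∀ u, First P.Rel P.m y u → cand V i <+: u →
      K1 E (q1 P.f y V (P.N y) (P.R y) (P.s1 y) D i)

variable {P : Par} {E : Word × List Bool → Bool} {U : Set Word}

private lemma ans_length (P : Par) (E : Word × List Bool → Bool) (y D : Word) (V : List Word)
    (n : ℕ) : (ans P E y D V n).length = n := by
  simp [ans]

open Classical in
private lemma ans_getD (P : Par) (E : Word × List Bool → Bool) (y D : Word) (V : List Word)
    {n i : ℕ} (hi : i < n) : (ans P E y D V n).getD i true =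
      decide (K1 E (q1 P.f y V (P.N y) (P.R y) (P.s1 y) D i)) := by
  have h : i < (ans P E y D V n).length := by
    rw [ans_length]
    exact hi
  rw [List.getD_eq_getElem _ _ h]
  simp only [ans, List.getElem_map, List.getElem_range]

/-- The invariant is kept by a block. -/
lemma inv_block (hP : Core P E) {y D : Word} {L : List Word} {rem : ℕ}
    (hy : P.n0 ≤ y.length) (hD : D.length = P.N y * P.R y)
    (hrep : ¬ Rep E (P.s y) (P.N y) (P.R y) D)
    (h : LD.Inv (P.R y) (P.m y) (First P.Rel P.m y) (rem + 1) L) :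
    LD.Inv (P.R y) (P.m y) (First P.Rel P.m y) rem
      (nxt (P.R y) (P.m y) L (ans P E y D (L.take (P.R y)) (P.R y))) := by
  classical
  have hR := hP.one y hy
  obtain ⟨ℓ, hℓm, hlen, hnd, h2R, hrem, hpre⟩ := id h
  have hV1 : ∀ v ∈ L.take (P.R y), v.length = ℓ := fun v hv => hlen v (List.mem_of_mem_take hv)
  have hV2 : (L.take (P.R y)).Nodup := hnd.sublist (List.take_sublist _ _)
  have hV3 : P.R y ≤ L.length → (L.take (P.R y)).length = P.R y := fun hL => by
    rw [List.length_take]
    exact min_eq_left hL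
  refine inv_step hR (fun u hu => hu.1) h (ans_length _ _ _ _ _ _) ?_ ?_
  · intro hL
    obtain ⟨i, hi, hK⟩ := hP.fail y (L.take (P.R y)) D ℓ hy (hV3 hL) hV2 hℓm hV1 hD hrep
    refine ⟨i, hi, ?_⟩
    rw [ans_getD _ _ _ _ _ hi]
    exact decide_eq_false hK
  · intro hL i hi hval u hu hc
    rw [ans_getD _ _ _ _ _ hi] at hval
    exact of_decide_eq_false hval
      (hP.pass y (L.take (P.R y)) D ℓ hy (hV3 hL) hV2 hℓm hV1 hD i hi u hu hc)


/-- The blocks of the second phase. -/
lemma runD_blocks (hP : Core P E) (hU : Answers E U) {y D : Word} (hy : P.n0 ≤ y.length)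
    (hD : D.length = P.N y * P.R y) (hrep : ¬ Rep E (P.s y) (P.N y) (P.R y) D)
    {k : ℕ} (hk : k ≤ P.m y * P.R y + P.R y) :
    ∃ L, LD.Inv (P.R y) (P.m y) (First P.Rel P.m y) (P.m y * P.R y + P.R y - k) L ∧
      (P.mach.step U)^[k * P.R y]
        (y, (D, ([[]], ([], (P.m y * P.R y + P.R y) * P.R y)))) =
        (y, (D, (L, ([], (P.m y * P.R y + P.R y - k) * P.R y)))) := by
  have hR := hP.one y hy
  induction k with
  | zero =>
    refine ⟨[[]], ?_, ?_⟩
    · rw [Nat.sub_zero]
      exact inv_init hR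
    · rw [Nat.zero_mul, Nat.sub_zero]
      rfl
  | succ k ih =>
    obtain ⟨L, h1, h2⟩ := ih (by omega)
    have hk' : P.m y * P.R y + P.R y - k = (P.m y * P.R y + P.R y - (k + 1)) + 1 := by omega
    rw [hk'] at h1 h2
    refine ⟨_, inv_block hP hy hD hrep h1, ?_⟩
    rw [Nat.succ_mul, Nat.add_comm, Function.iterate_add_apply, h2, Nat.succ_mul]
    exact block hU hD hR

/-- The whole run. -/
lemma run (hP : Core P E) (hU : Answers E U) {y : Word} (hy : P.n0 ≤ y.length) :
    (∀ i ≤ P.T y, Reach P y (P.T y - i) ((P.mach.step U)^[i] (P.mach.ini y))) ∧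
    ∃ L, (∀ u, First P.Rel P.m y u → u ∈ L) ∧ ∃ D α,
      (P.mach.step U)^[P.T y] (P.mach.ini y) = (y, (D, (L, (α, 0)))) := by
  have hR := hP.one y hy
  have hini : P.mach.ini y = (y, ([], ([[]], ([], P.T y)))) := by
    simp only [Par.mach]
    rw [if_pos hy]
  have hT : P.T y = P.N y * P.R y + (P.m y * P.R y + P.R y) * P.R y := by
    unfold Par.T
    ring
  have hext : Ext P E y [] := by
    obtain ⟨D, h1, h2⟩ := hP.rep y hy
    exact ⟨D, h1, List.nil_prefix, h2⟩
  -- the first phase
  have ph1 : ∀ i ≤ P.N y * P.R y, ∃ π' : Word, π'.length = i ∧ Ext P E y π' ∧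
      (P.mach.step U)^[i] (P.mach.ini y) = (y, (π', ([[]], ([], P.T y - i)))) := by
    intro i hi
    obtain ⟨π', h1, h2, h3⟩ := phase_one (L := [[]]) (α := []) (n := i) (c := P.T y - i)
      (π := []) hU (by simpa using hi) hext
    refine ⟨π', by simpa using h1, h2, ?_⟩
    rw [hini]
    rw [show P.T y - i + i = P.T y by omega] at h3
    exact h3
  obtain ⟨D, hD, ⟨D', hD', hpre, hrep'⟩, hend⟩ := ph1 _ le_rfl
  obtain rfl : D = D' := List.IsPrefix.eq_of_length hpre (by rw [hD, hD'])
  rw [show P.T y - P.N y * P.R y = (P.m y * P.R y + P.R y) * P.R y by omega] at hend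
  -- the second phase
  refine ⟨fun i hi => ?_, ?_⟩
  · rcases Nat.le_total i (P.N y * P.R y) with h | h
    · obtain ⟨π', h1, -, h3⟩ := ph1 i h
      rw [h3]
      refine ⟨rfl, ?_, ?_, ?_, ?_, rfl⟩
      · show π'.length ≤ _
        omega
      · show ([[]] : List Word).length ≤ _
        rw [List.length_singleton]
        omega
      · intro v hv
        have hv' : v = [] := by simpa using hv
        rw [hv']
        exact Nat.zero_le _
      · exact Nat.zero_le _
    · obtain ⟨j, rfl⟩ := Nat.exists_eq_add_of_le h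
      have hj : j ≤ (P.m y * P.R y + P.R y) * P.R y := by omega
      have hn : j % P.R y < P.R y := Nat.mod_lt _ (by omega)
      have hkn : j = (j / P.R y) * P.R y + j % P.R y := by
        rw [Nat.mul_comm]
        exact (Nat.div_add_mod _ _).symm
      have hk : j / P.R y ≤ P.m y * P.R y + P.R y := by
        rw [← Nat.mul_div_cancel (P.m y * P.R y + P.R y) (show 0 < P.R y by omega)]
        exact Nat.div_le_div_right hj
      obtain ⟨L, h1, h2⟩ := runD_blocks hP hU hy hD hrep' hk
      set k := j / P.R y with hkdef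
      set n := j % P.R y with hndef
      have hsum : (P.m y * P.R y + P.R y - k) * P.R y =
          ((P.m y * P.R y + P.R y - k) * P.R y - n) + n := by
        have : k * P.R y + (P.m y * P.R y + P.R y - k) * P.R y =
            (P.m y * P.R y + P.R y) * P.R y := by
          rw [← Nat.add_mul]
          congr 1
          omega
        omega
      have hit : (P.mach.step U)^[P.N y * P.R y + j] (P.mach.ini y) =
          (y, (D, (L, (ans P E y D (L.take (P.R y)) n,
            (P.m y * P.R y + P.R y - k) * P.R y - n)))) := by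
        rw [Nat.add_comm, Function.iterate_add_apply, hend, hkn, Nat.add_comm,
          Function.iterate_add_apply, h2, hsum, Nat.add_sub_cancel]
        exact block_beg hU hD hn
      rw [hit]
      obtain ⟨ℓ, hℓ, hlen, -, hL2, -⟩ := h1
      refine ⟨rfl, ?_, ?_, ?_, ?_, ?_⟩
      · exact hD.le
      · exact hL2
      · intro v hv
        rw [hlen v hv]
        exact hℓ
      · show (ans P E y D (L.take (P.R y)) n).length ≤ _
        unfold ans
        rw [List.length_map, List.length_range]
        exact hn.le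
      · show (P.m y * P.R y + P.R y - k) * P.R y - n = _
        have : k * P.R y + (P.m y * P.R y + P.R y - k) * P.R y =
            (P.m y * P.R y + P.R y) * P.R y := by
          rw [← Nat.add_mul]
          congr 1
          omega
        omega
  · obtain ⟨L, h1, h2⟩ := runD_blocks hP hU hy hD hrep' le_rfl
    rw [Nat.sub_self] at h1 h2
    refine ⟨L, inv_end hR (fun u hu => hu.1) h1, D, [], ?_⟩
    rw [hT, Nat.add_comm, Function.iterate_add_apply, hend, h2, Nat.zero_mul]

end Pool.Agent.Lib.MP_634427_lc.Y
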