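import Pool.Agent.Lib.MP_634427_lc.Y.Vc

/-!
# Density sublinear in the exponent of the witness length: definitions

`Ver V c` is the NP set of a relation `V` with witnesses of length `(n + 2) ^ c`.
-/

namespace Pool.Agent.Lib.MP_634427_lc

/-- The set of the words `x` such that `V (x, w)` for a word `w` of length `(|x| + 2) ^ c`. -/
def Ver (V : Word × Word → Bool) (c : ℕ) : Set Word :=
  {x | ∃ w : Word, w.length = (x.length + 2) ^ c ∧ V (x, w) = true}

namespace Y

open LD

/-- The number given by the word `y`, if it is at most `(|y| + 2) ^ c`. -/
def num (c : ℕ) (y : Word) : ℕ :=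
  Nat.findGreatest (fun i => isPad y i = true) ((y.length + 2) ^ c)

/-- The number of `y` is not too large. -/
def okn (e c : ℕ) (y : Word) : Bool :=
  isPad y (num c y) && decide ((num c y + 2) ^ e ≤ (y.length + 2) ^ c)

/-- The machine `M` with the input `pd x`; short words are looked up in a table, the output is
computed from `x` and the list of candidates. -/
def wmach (P : Par) (pd : Word → Word) (acc : Word × Word → Bool) (n1 : ℕ) (tab : Word → Bool) :
    Mach (Word × St) where
  ini x := (x, P.mach.ini (pd x))
  ask := fun s => if n1 ≤ s.1.length then P.mach.ask s.2 else none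
  upd := fun s b => (s.1, P.mach.upd s.2 b)
  out := fun s => if n1 ≤ s.1.length then
      s.2.2.2.1.any fun u => decide (u.length = P.m s.2.1) && P.Rel (s.2.1, u) && acc (s.1, u)
    else tab s.1

end Y

end Pool.Agent.Lib.MP_634427_lc
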