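import Pool.Agent.Lib.MP_634427_lc.Y.Defs
import Pool.Agent.Lib.MP_634427_lc.LD.Model
import Pool.Agent.Lib.MP_634427_lc.Low
import Pool.Agent.Lib.MP_634427_lc.Small.Dec

/-!
# All sets in NP are small-reducible
-/

namespace Pool.Agent.Lib.MP_634427_lc.Y

open Pool.Agent.Lib.MP_634427_lc LD

/-- `Ver V c` is in NP. Proof: relation `decide (|u| = (|x| + 2) ^ c) && V (x, u)`, exponent
`3 ^ c`, `pow_le_pow_add`. -/
theorem inNP_ver {V : Word × Word → Bool} (hV : PT V) (c : ℕ) : InNP (Ver V c) := by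
  refine ⟨fun p => decide (p.2.length = (p.1.length + 2) ^ c) && V p, 3 ^ c,
    PT.and (PT.eqNat (PT.length PT.snd) (PT.pow (PT.add (PT.length PT.fst) (PT.const 2)) c)) hV,
    fun x => ⟨?_, ?_⟩⟩
  · rintro ⟨w, h1, h2⟩
    refine ⟨w, ?_, ?_⟩
    · rw [h1]
      exact pow_le_pow_add c x.length
    · simp only [Bool.and_eq_true, decide_eq_true_eq]
      exact ⟨h1, h2⟩
  · rintro ⟨w, -, h⟩
    simp only [Bool.and_eq_true, decide_eq_true_eq] at h
    exact ⟨w, h.1, h.2⟩

/-- Every set in NP is `Ver V c` for a fixed `V` and all large `c`. Proof: `Small.exists_rel`,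
`m x ≤ (|x| + 2) ^ K` by `PT.size_le` and `sz_word_le` (see `hmle` in `LD/ParA.lean`),
`V (x, w) := decide (m x ≤ |w|) && Rel (x, w.take (m x))`. -/
theorem exists_ver {A : Set Word} (hA : InNP A) :
    ∃ (V : Word × Word → Bool) (K : ℕ), PT V ∧ ∀ c, K ≤ c → Ver V c = A := by
  obtain ⟨Rel, m, hRel, hm, h⟩ := Small.exists_rel hA
  obtain ⟨cm, hcm⟩ := hm.size_le
  have hmle : ∀ y : Word, m y ≤ (y.length + 2) ^ (2 * cm) := by
    intro y
    have h1 := hcm y
    rw [sz_nat] at h1
    have h2 := sz_word_le y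
    rw [pow_mul]
    exact h1.trans (Nat.pow_le_pow_left (by nlinarith) cm)
  refine ⟨fun p => decide (m p.1 ≤ p.2.length) && Rel (p.1, p.2.take (m p.1)), 2 * cm,
    PT.and (PT.le (hm.comp PT.fst) (PT.length PT.snd))
      (hRel.comp (PT.pair PT.fst (PT.take (hm.comp PT.fst) PT.snd))), fun c hc => ?_⟩
  ext x
  constructor
  · rintro ⟨w, -, h2⟩
    simp only [Bool.and_eq_true, decide_eq_true_eq] at h2
    refine (h x).2 ⟨w.take (m x), ?_, h2.2⟩
    rw [List.length_take]
    exact min_eq_left h2.1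
  · intro hx
    obtain ⟨w, h1, h2⟩ := (h x).1 hx
    have h3 : m x ≤ (x.length + 2) ^ c :=
      (hmle x).trans (Nat.pow_le_pow_right (by omega) hc)
    have h4 : (w ++ List.replicate ((x.length + 2) ^ c - m x) false).length =
        (x.length + 2) ^ c := by
      rw [List.length_append, List.length_replicate, h1]
      omega
    refine ⟨w ++ List.replicate ((x.length + 2) ^ c - m x) false, h4, ?_⟩
    simp only [Bool.and_eq_true, decide_eq_true_eq]
    refine ⟨by rw [h4]; exact h3, ?_⟩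
    rw [← h1, List.take_left]
    exact h2

end Pool.Agent.Lib.MP_634427_lc.Y
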