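import Pool.Agent.Lib.MP_634427_lc.Y.Defs
import Pool.Agent.Lib.MP_634427_lc.LD.FindPT

/-!
# The number given by a padded numeral
-/

namespace Pool.Agent.Lib.MP_634427_lc.Y

open Pool.Agent.Lib.MP_634427_lc LD

theorem length_padn (n j : ℕ) : (padn n j).length = (bits n).length + 1 + j := by
  unfold padn
  rw [List.length_append, List.length_cons, List.length_replicate]
  omega

/-- Proof: `PT.findGreatest`, `pt_isPad`. -/
theorem pt_num {γ : Type} [Enc γ] (c : ℕ) {y : γ → Word} (hy : PT y) :
    PT fun a => num c (y a) := by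
  have h1 : PT fun q : γ × ℕ => isPad (y q.1) q.2 := pt_isPad (hy.comp PT.fst) PT.snd
  have h2 : PT fun a => ((y a).length + 2) ^ c :=
    PT.pow (PT.add (PT.length hy) (PT.const 2)) c
  exact PT.findGreatest (p := fun a i => isPad (y a) i) h1 h2

theorem pt_okn {γ : Type} [Enc γ] (e c : ℕ) {y : γ → Word} (hy : PT y) :
    PT fun a => okn e c (y a) := by
  have h1 := pt_num c hy
  have h2 : PT fun a => ((y a).length + 2) ^ c :=
    PT.pow (PT.add (PT.length hy) (PT.const 2)) c
  have h3 : PT fun a => (num c (y a) + 2) ^ e := PT.pow (PT.add h1 (PT.const 2)) e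
  exact PT.and (pt_isPad hy h1) (PT.le h3 h2)

/-- If the test is passed, then `y` is a padded numeral of a number that is not too large. -/
theorem of_okn {e c : ℕ} {y : Word} (h : okn e c y = true) :
    (∃ j, y = padn (num c y) j) ∧ (num c y + 2) ^ e ≤ (y.length + 2) ^ c := by
  unfold okn at h
  rw [Bool.and_eq_true, decide_eq_true_eq] at h
  refine ⟨⟨y.length - ((bits (num c y)).length + 1), ?_⟩, h.2⟩
  have h1 := h.1
  unfold isPad at h1
  rwa [decide_eq_true_eq] at h1

/-- The test is passed by long padded numerals. -/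
theorem okn_padn {e c n j : ℕ} (he : 1 ≤ e) (h : (n + 2) ^ e ≤ ((padn n j).length + 2) ^ c) :
    okn e c (padn n j) = true ∧ num c (padn n j) = n := by
  have hn : n ≤ ((padn n j).length + 2) ^ c := by
    have h1 : n + 2 ≤ (n + 2) ^ e := Nat.le_self_pow (by omega) _
    omega
  have h2 : num c (padn n j) = n := by
    unfold num
    rw [Nat.findGreatest_eq_iff]
    refine ⟨hn, fun _ => isPad_padn n j, fun i hi _ hp => ?_⟩
    have := isPad_iff.1 hp
    omega
  refine ⟨?_, h2⟩
  unfold okn
  rw [h2, isPad_padn, Bool.true_and, decide_eq_true_eq]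
  exact h

end Pool.Agent.Lib.MP_634427_lc.Y
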