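import Pool.Agent.Lib.MP_634427_lc.Y.Defs
import Pool.Agent.Lib.MP_634427_lc.LD.Pass

/-!
# The true candidate passes, for one word
-/

namespace Pool.Agent.Lib.MP_634427_lc.Y

open Pool.Agent.Lib.MP_634427_lc LD

/-- `LD.pass` (file `LD/Pass.lean`, copy the proof), where the set `A` answers only the questions
about `y`. -/
theorem pass_at {E : Word × List Bool → Bool} {S : Set Word} {Rel : Word × Word → Bool}
    {m : Word → ℕ} {A : Set Word} {f : Word → Word × List Word} {y u : Word}
    (hA : ∀ (rs : List Rule) (T : List Word), code (enc ((y, (rs, T)) : QA)) ∈ A ↔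
      ∃ u, First Rel m y u ∧ mem1 T (route rs u) = true)
    (hf : ∀ x, x ∈ A ↔ E ((f x).1, answerList S (f x).2) = true) {V : List Word}
    {N R s1 M t ℓ i : ℕ} {D : Word} (hV : V.Nodup) (hℓ : ∀ v ∈ V, v.length = ℓ)
    (hR : V.length = R) (hi : i < R) (hfirst : First Rel m y u) (hu : cand V i <+: u)
    (hM : ∀ w ∈ pool (rows f y V N R D), {v ∈ S | v.length ≤ w.length}.ncard ≤ M)
    (ht : (pool (rows f y V N R D)).length < 2 ^ t) (hs1 : M * (2 * t + 1) ≤ s1) :
    K1 E (q1 f y V N R s1 D i) := by
  classical
  obtain ⟨z, hz, hzm⟩ := exists_dedup hM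
  refine ⟨z.map fun w => bits (ix w (pool (rows f y V N R D))), ?_, ?_⟩
  · refine le_trans (sz_short_le (t := t) _ ?_) ?_
    · intro w hw
      obtain ⟨v, -, rfl⟩ := List.mem_map.1 hw
      exact length_bits_le ((ix_le _ v).trans_lt ht)
    · rw [List.length_map]
      exact (Nat.mul_le_mul_right _ hz).trans hs1
  · intro q hq
    unfold q1 at hq
    obtain ⟨j, hj, rfl⟩ := List.mem_map.1 hq
    rw [List.mem_range] at hj
    have hrow : (rows f y V N R D).getD j ([], []) = f (inst y V R D j) := by
      unfold rows
      rw [List.getD_eq_getElem _ _ (by simpa using hj)]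
      simp
    have hmem : ∀ w ∈ (f (inst y V R D j)).2, w ∈ pool (rows f y V N R D) := by
      intro w hw
      unfold pool
      rw [List.mem_flatMap]
      refine ⟨f (inst y V R D j), ?_, hw⟩
      unfold rows
      exact List.mem_map.2 ⟨j, List.mem_range.2 hj, rfl⟩
    have hans : (f (inst y V R D j)).2.map (fun w =>
        mem1 (z.map fun w => bits (ix w (pool (rows f y V N R D))))
          (bits (ix w (pool (rows f y V N R D))))) = answerList S (f (inst y V R D j)).2 := by
      unfold answerList
      refine List.map_congr_left fun w hw => ?_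
      rw [Bool.eq_iff_iff, mem1_iff, decide_eq_true_eq, List.mem_map]
      constructor
      · rintro ⟨v, hv, hvw⟩
        have h1 := (hzm v).1 hv
        rw [← ix_inj h1.1 (hmem w hw) (bits_injective hvw)]
        exact h1.2
      · intro h
        exact ⟨w, (hzm w).2 ⟨hmem w hw, h⟩, rfl⟩
    have h1 : (code (enc (y, (mk V, names R j D))) ∈ A) ↔ D.getD (j * R + i) false = true := by
      rw [hA (mk V) (names R j D)]
      constructor
      · rintro ⟨u', hu', h⟩
        rw [First.unique hu' hfirst] at h
        change mem1 (names R j D) (route (mk V) u) = true at h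
        rwa [route_cand hV hℓ (by omega) hu, mem1_names hi] at h
      · intro h
        refine ⟨u, hfirst, ?_⟩
        change mem1 (names R j D) (route (mk V) u) = true
        rwa [route_cand hV hℓ (by omega) hu, mem1_names hi]
    have h2 := hf (inst y V R D j)
    rw [← hans] at h2
    rw [Bool.eq_iff_iff]
    change ev E _ (nrow _ ((rows f y V N R D).getD j ([], []))) = true ↔
      D.getD (j * R + i) false = true
    rw [← h1, hrow]
    unfold ev nrow
    rw [List.map_map]
    exact h2.symm

end Pool.Agent.Lib.MP_634427_lc.Y
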