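import Pool.Agent.Lib.MP_634427_lc.Y.Arith
import Pool.Agent.Lib.MP_634427_lc.Y.Bnd
import Pool.Agent.Lib.MP_634427_lc.Y.Core
import Pool.Agent.Lib.MP_634427_lc.Y.PassAt
import Pool.Agent.Lib.MP_634427_lc.Y.Num
import Pool.Agent.Lib.MP_634427_lc.LD.ParA

/-!
# The parameters
-/

namespace Pool.Agent.Lib.MP_634427_lc.Y

open Pool.Agent.Lib.MP_634427_lc LD

private lemma length_rows (f : Word → Word × List Word) (y : Word) (V : List Word) (N R : ℕ)
    (D : Word) : (rows f y V N R D).length = N := by
  simp [rows]

private lemma length_pool_le {l : List Row} {b : ℕ} (h : ∀ ρ ∈ l, ρ.2.length ≤ b) :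
    (pool l).length ≤ l.length * b := by
  induction l with
  | nil => simp [pool]
  | cons a l ih =>
    have h1 := h a List.mem_cons_self
    have h2 := ih fun ρ hρ => h ρ (List.mem_cons_of_mem _ hρ)
    simp only [pool, List.flatMap_cons, List.length_append, List.length_cons] at h2 ⊢
    rw [Nat.succ_mul]
    omega

/-- The parameters of the machine for the first witnesses. The set `A` answers the questions about
the words `y` that pass the test `okn e c`. Proof: as `LD.exists_par` (file `LD/ParA.lean`, copy):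
`P.Rel (y, u) = okn e c y && Rel (replicate (num c y) false, u)`,
`P.m y = m (replicate (num c y) false)`, `t y = root (5 * q + 1) |y|`, `b y = β (5 * |y| + 5)`,
`M y = μ (5 * |y| + 5)`, `R = b * t ^ 2 + t`, `N = (M + 1) * t ^ 2`, `s1 = M * (2 * t + 1)`, `s` as
in `arith2`, `n0` from `arith2` (with `cm` such that `P.m y ≤ (|y| + 2) ^ cm`), `tab` constant. For
a word `y` that fails the test there is no first witness, so `pass` is trivial; for the others use
`pass_at` and `of_okn`. The questions: `length_w2_le`, `length_w1_le` and the last statements of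
`arith2`. -/
theorem exists_par2 {E : Word × List Bool → Bool} {q p r C e c : ℕ} {S A : Set Word} (hpq : p < q)
    {Rel : Word × Word → Bool} {m : Word → ℕ} (hRel : PT Rel) (hm : PT m)
    (hA : ∀ (n j : ℕ) (rs : List Rule) (T : List Word), (n + 2) ^ e ≤ ((padn n j).length + 2) ^ c →
      (code (enc ((padn n j, (rs, T)) : QA)) ∈ A ↔
        ∃ u, First Rel m (List.replicate n false) u ∧ mem1 T (route rs u) = true))
    {f : Word → Word × List Word} {β μ : ℕ → ℕ} (h : Bounds2 E q p r A S f β μ C) :
    ∃ P : Par, P.IsPT ∧ Core P E ∧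
      (∀ y u, okn e c y = true → P.m y = m (List.replicate (num c y) false) ∧
        P.Rel (y, u) = Rel (List.replicate (num c y) false, u)) ∧
      (∀ (y π : Word), P.n0 ≤ y.length → π.length ≤ P.N y * P.R y →
        (w2 (P.s y, (P.N y, (P.R y, π)))).length + 2 ≤ (μ (5 * y.length + 5) + 1) * y.length) ∧
      ∀ (y : Word) (V : List Word) (D : Word) (i : ℕ), P.n0 ≤ y.length → V.length ≤ P.R y →
        (∀ v ∈ V, v.length ≤ P.m y) → D.length = P.N y * P.R y →
        (w1 (q1 P.f y V (P.N y) (P.R y) (P.s1 y) D i)).length + 2 ≤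
          (μ (5 * y.length + 5) + 1) * y.length := by
  have hrep : PT fun y : Word => List.replicate (num c y) false :=
    PT.replicate (pt_num c PT.id) (PT.const false)
  have hokn : PT fun y : Word => okn e c y := pt_okn e c PT.id
  have hRel' : PT fun x : Word × Word =>
      (okn e c x.1 && Rel (List.replicate (num c x.1) false, x.2)) :=
    PT.and (hokn.comp PT.fst) (hRel.comp (PT.pair (hrep.comp PT.fst) PT.snd))
  have hm' : PT fun y : Word => m (List.replicate (num c y) false) := hm.comp hrep
  obtain ⟨cm, hcm⟩ := hm'.size_le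
  have hmle : ∀ y : Word, m (List.replicate (num c y) false) ≤ (y.length + 2) ^ (2 * cm) := by
    intro y
    have h1 := hcm y
    rw [sz_nat] at h1
    have h2 := sz_word_le y
    rw [pow_mul]
    exact h1.trans (Nat.pow_le_pow_left (by nlinarith) cm)
  obtain ⟨n0, hn0⟩ := arith2 q p r C (2 * cm) hpq β μ h.powβ h.powμ
  let t : Word → ℕ := fun y => LD.root (5 * q + 1) y.length
  let b : Word → ℕ := fun y => β (5 * y.length + 5)
  let M : Word → ℕ := fun y => μ (5 * y.length + 5)
  let R : Word → ℕ := fun y => b y * t y ^ 2 + t y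
  let N : Word → ℕ := fun y => (M y + 1) * t y ^ 2
  let s1 : Word → ℕ := fun y => M y * (2 * t y + 1)
  let s : Word → ℕ := fun y => N y * (b y * (2 * t y + 1) + 2) + R y * (s1 y + 1) + 1
  let m' : Word → ℕ := fun y => m (List.replicate (num c y) false)
  let Rel' : Word × Word → Bool :=
    fun x => okn e c x.1 && Rel (List.replicate (num c x.1) false, x.2)
  have hlen : PT fun y : Word => 5 * y.length + 5 :=
    PT.add (PT.mul (PT.const 5) (PT.length PT.id)) (PT.const 5)
  have ht : PT t := pt_root _ (PT.length PT.id)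
  have hb : PT b := h.ptβ.comp hlen
  have hM : PT M := h.ptμ.comp hlen
  have hR : PT R := PT.add (PT.mul hb (PT.pow ht 2)) ht
  have hN : PT N := PT.mul (PT.add hM (PT.const 1)) (PT.pow ht 2)
  have h2t : PT fun y => 2 * t y + 1 := PT.add (PT.mul (PT.const 2) ht) (PT.const 1)
  have hs1 : PT s1 := PT.mul hM h2t
  have hs : PT s := PT.add (PT.add (PT.mul hN (PT.add (PT.mul hb h2t) (PT.const 2)))
    (PT.mul hR (PT.add hs1 (PT.const 1)))) (PT.const 1)
  have har := fun y : Word => fun hy : n0 ≤ y.length =>
    hn0 y.length hy (t y) (b y) (M y) (R y) (N y) (s1 y) (s y) rfl rfl rfl rfl rfl rfl rfl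
  -- the length of the questions for the reduction
  have hinst : ∀ (y : Word) (V : List Word) (D : Word) (j : ℕ), n0 ≤ y.length →
      V.length ≤ R y → (∀ v ∈ V, v.length ≤ m' y) →
      (inst y V (R y) D j).length ≤ 5 * y.length + 5 := by
    intro y V D j hy hV hv
    obtain ⟨-, -, -, h4, -, h6, h7, -⟩ := har y hy
    exact (length_inst_le hv hV ((hmle y).trans_lt h7) h6).trans h4
  have hrow : ∀ (y : Word) (V : List Word) (D : Word), n0 ≤ y.length →
      V.length ≤ R y → (∀ v ∈ V, v.length ≤ m' y) → ∀ ρ ∈ rows f y V (N y) (R y) D,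
      ρ.1.length + ρ.2.length ≤ b y := by
    intro y V D hy hV hv ρ hρ
    obtain ⟨j, -, rfl⟩ := List.mem_map.1 hρ
    exact (h.len _).trans (h.monβ (hinst y V D j hy hV hv))
  have hpool : ∀ (y : Word) (V : List Word) (D : Word), n0 ≤ y.length →
      V.length ≤ R y → (∀ v ∈ V, v.length ≤ m' y) →
      (pool (rows f y V (N y) (R y) D)).length < 2 ^ t y := by
    intro y V D hy hV hv
    obtain ⟨-, -, -, -, h5, -, -, -⟩ := har y hy
    refine lt_of_le_of_lt ?_ h5
    have h1 := length_pool_le (l := rows f y V (N y) (R y) D) (b := b y) fun ρ hρ => by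
      have := hrow y V D hy hV hv ρ hρ
      omega
    rwa [length_rows] at h1
  have hq1 : ∀ (y : Word) (V : List Word) (D : Word) (i : ℕ), n0 ≤ y.length →
      V.length ≤ R y → (∀ v ∈ V, v.length ≤ m' y) →
      (w1 (q1 f y V (N y) (R y) (s1 y) D i)).length + 2 ≤ (M y + 1) * y.length := by
    intro y V D i hy hV hv
    obtain ⟨h1, -, -, -, -, -, -, -, h9⟩ := har y hy
    have h2 := length_w1_le (f := f) (y := y) (V := V) (N := N y) (R := R y) (s1 := s1 y)
      (i := i) (D := D) (hrow y V D hy hV hv) h1 (hpool y V D hy hV hv)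
    exact (Nat.add_le_add_right h2 2).trans h9
  refine ⟨{ Rel := Rel', m := m', f := f, N := N, R := R, s := s, s1 := s1, n0 := n0,
            tab := fun _ => false },
    ⟨hRel', hm', h.ptf, hN, hR, hs, hs1, PT.const false⟩, ?_, ?_, ?_, ?_⟩
  · constructor
    · intro y hy
      exact (har y hy).2.1
    · intro y hy
      exact exists_not_rep E (har y hy).2.2.1
    · intro y V D ℓ hy hV hVn hℓ hv hD hrp
      have hv' : ∀ v ∈ V, v.length ≤ m' y := fun v hv1 => (hv v hv1).trans_le hℓ
      exact fail hD hrp (hrow y V D hy hV.le hv') (har y hy).1 (hpool y V D hy hV.le hv') le_rfl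
    · intro y V D ℓ hy hV hVn hℓ hv hD i hi u hu hcu
      have hv' : ∀ v ∈ V, v.length ≤ m' y := fun v hv1 => (hv v hv1).trans_le hℓ
      have hu' : First Rel' m' y u := hu
      have hok : okn e c y = true := by
        have h1 : (okn e c y && Rel (List.replicate (num c y) false, u)) = true := hu'.2.1
        exact (Bool.and_eq_true_iff.1 h1).1
      obtain ⟨⟨j, hj⟩, hle⟩ := of_okn hok
      have hAy : ∀ (rs : List Rule) (T : List Word), code (enc ((y, (rs, T)) : QA)) ∈ A ↔
          ∃ u, First Rel' m' y u ∧ mem1 T (route rs u) = true := by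
        intro rs T
        have h1 := hA (num c y) j rs T (by rw [← hj]; exact hle)
        rw [← hj] at h1
        rw [h1]
        have h2 : ∀ u, First Rel m (List.replicate (num c y) false) u ↔ First Rel' m' y u := by
          intro u
          simp only [First, Rel', m', hok, Bool.true_and]
        exact exists_congr fun u => and_congr (h2 u) Iff.rfl
      refine pass_at hAy h.iff hVn hv hV hi hu' hcu (M := M y) (t := t y) ?_
        (hpool y V D hy hV.le hv') le_rfl
      intro w hw
      obtain ⟨ρ, hρ, hw'⟩ := List.mem_flatMap.1 hw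
      obtain ⟨j, -, rfl⟩ := List.mem_map.1 hρ
      exact (h.den _ w hw').trans (h.monμ (hinst y V D j hy hV.le hv'))
  · intro y u hok
    refine ⟨rfl, ?_⟩
    show (okn e c y && Rel (List.replicate (num c y) false, u)) = _
    rw [hok, Bool.true_and]
  · intro y π hy hπ
    obtain ⟨-, -, -, -, -, -, -, h8, -⟩ := har y hy
    have h1 := length_w2_le (s y) (N y) (R y) π
    have h2 : π.length ≤ N y * R y := hπ
    have h3 : (w2 (s y, (N y, (R y, π)))).length + 2 ≤
        2 * (s y + N y + R y + 2 * (N y * R y)) + 8 + 2 := by omega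
    exact h3.trans h8
  · intro y V D i hy hV hv _
    exact hq1 y V D i hy hV hv

end Pool.Agent.Lib.MP_634427_lc.Y
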