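import Pool.Agent.Lib.MP_634427_lc.Y.Core
import Pool.Agent.Lib.MP_634427_lc.Y.Defs
import Pool.Agent.Lib.MP_634427_lc.LD.MachPT
import Pool.Agent.Lib.MP_634427_lc.LD.Len
import Pool.Agent.Lib.MP_634427_lc.LD.ThinA

/-!
# The machine with a padded input works in polynomial time
-/

namespace Pool.Agent.Lib.MP_634427_lc.Y

open Pool.Agent.Lib.MP_634427_lc LD

/-- Proof: `Par.IsPT.mach` and the rules. -/
theorem wmach_pt {P : Par} (hP : P.IsPT) {pd : Word → Word} (hpd : PT pd)
    {acc : Word × Word → Bool} (hacc : PT acc) (n1 : ℕ) {tab : Word → Bool} (htab : PT tab) :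
    (wmach P pd acc n1 tab).IsPT := by
  have hM := hP.mach
  have x : PT fun s : Word × St => s.1 := PT.fst
  have g : PT fun s : Word × St => s.2 := PT.snd
  have y : PT fun s : Word × St => s.2.1 := PT.fst' PT.snd
  have L : PT fun s : Word × St => s.2.2.2.1 := PT.fst' (PT.snd' (PT.snd' PT.snd))
  have hle : PT fun s : Word × St => decide (n1 ≤ s.1.length) :=
    PT.le (PT.const n1) (PT.length x)
  refine ⟨?_, ?_, ?_, ?_⟩
  · exact PT.pair PT.id (hM.ini.comp hpd)
  · exact PT.ite hle (hM.ask.comp g) (PT.const none)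
  · exact PT.pair (PT.fst' PT.fst) (hM.upd.comp (PT.pair (PT.snd' PT.fst) PT.snd))
  · exact PT.ite hle
      (PT.any (p := fun (s : Word × St) (u : Word) =>
          decide (u.length = P.m s.2.1) && P.Rel (s.2.1, u) && acc (s.1, u)) L
        (PT.and (PT.and (PT.eqNat (PT.length PT.snd) (hP.m.comp (y.comp PT.fst)))
          (hP.Rel.comp (PT.pair (y.comp PT.fst) PT.snd)))
          (hacc.comp (PT.pair (x.comp PT.fst) PT.snd))))
      (htab.comp x)

end Pool.Agent.Lib.MP_634427_lc.Y
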