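import Pool.Agent.Lib.MP_634427_lc.Y.Core
import Pool.Agent.Lib.MP_634427_lc.Y.Defs
import Pool.Agent.Lib.MP_634427_lc.LD.MachPT
import Pool.Agent.Lib.MP_634427_lc.LD.Len
import Pool.Agent.Lib.MP_634427_lc.LD.ThinA

/-!
# Sizes of the states
-/

namespace Pool.Agent.Lib.MP_634427_lc.Y

open Pool.Agent.Lib.MP_634427_lc LD

/-- A bound for the sizes of the states and the number of steps. -/
private def bnd (P : Par) (y : Word) : ℕ :=
  2 * y.length + 2 * (P.N y * P.R y) + 2 * P.R y * (2 * P.m y + 1) + 2 * P.R y + P.T y + 6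

private lemma bnd_pt {P : Par} (hPT : P.IsPT) : PT (bnd P) := by
  have hT : PT P.T := PT.add (PT.mul hPT.N hPT.R) (PT.mul hPT.R (PT.add (PT.mul hPT.m hPT.R) hPT.R))
  exact PT.add (PT.add (PT.add (PT.add (PT.add (PT.mul (PT.const 2) (PT.length PT.id))
    (PT.mul (PT.const 2) (PT.mul hPT.N hPT.R)))
    (PT.mul (PT.mul (PT.const 2) hPT.R) (PT.add (PT.mul (PT.const 2) hPT.m) (PT.const 1))))
    (PT.mul (PT.const 2) hPT.R)) hT) (PT.const 6)

private lemma bnd_le {P : Par} (hPT : P.IsPT) : ∃ a, ∀ y : Word, bnd P y ≤ (y.length + 2) ^ a := by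
  obtain ⟨c, hc⟩ := (bnd_pt hPT).size_le
  refine ⟨2 * c, fun y => ?_⟩
  have h1 := hc y
  rw [sz_nat] at h1
  have h2 := sz_word_le y
  have h3 : sz y + 2 ≤ (y.length + 2) ^ 2 := by nlinarith
  calc bnd P y ≤ (sz y + 2) ^ c := h1
    _ ≤ ((y.length + 2) ^ 2) ^ c := Nat.pow_le_pow_left h3 c
    _ = (y.length + 2) ^ (2 * c) := (Nat.pow_mul _ _ _).symm

private lemma sz_reach {P : Par} {y : Word} {c : ℕ} {s : St} (hc : c ≤ P.T y)
    (h : Reach P y c s) : sz s ≤ bnd P y := by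
  obtain ⟨h1, h2, h3, h4, h5, h6⟩ := h
  have e : sz s = sz s.1 + (sz s.2.1 + (sz s.2.2.1 + (sz s.2.2.2.1 + s.2.2.2.2 + 1) + 1) + 1) + 1 := by
    rw [sz_prod s, sz_prod s.2, sz_prod s.2.2, sz_prod s.2.2.2, sz_nat]
  have g1 : sz s.1 ≤ 2 * y.length := by
    rw [h1]
    exact sz_word_le y
  have g2 : sz s.2.1 ≤ 2 * (P.N y * P.R y) :=
    (sz_word_le _).trans (Nat.mul_le_mul_left 2 h2)
  have g3 : sz s.2.2.1 ≤ 2 * P.R y * (2 * P.m y + 1) :=
    (sz_short_le _ h4).trans (Nat.mul_le_mul_right _ h3)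
  have g4 : sz s.2.2.2.1 ≤ 2 * P.R y := (sz_word_le _).trans (Nat.mul_le_mul_left 2 h5)
  rw [e, h6]
  unfold bnd
  omega

/-- Sizes of the states and the number of steps are polynomial. Proof: `bnd`, `bnd_pt`, `bnd_le`,
`sz_reach` in `LD/RunE.lean` are private, copy them. -/
theorem exists_bd {P : Par} (hP : P.IsPT) : ∃ a, ∀ y : Word, P.T y ≤ (y.length + 2) ^ a ∧
    ∀ c s, c ≤ P.T y → Reach P y c s → sz s ≤ (y.length + 2) ^ a := by
  obtain ⟨a, ha⟩ := bnd_le hP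
  refine ⟨a, fun y => ⟨?_, fun c s hc h => (sz_reach hc h).trans (ha y)⟩⟩
  refine le_trans ?_ (ha y)
  unfold bnd
  omega

end Pool.Agent.Lib.MP_634427_lc.Y
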