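import Pool.Agent.Lib.MP_634427_lc.Y.Core
import Pool.Agent.Lib.MP_634427_lc.Y.Defs
import Pool.Agent.Lib.MP_634427_lc.LD.MachPT
import Pool.Agent.Lib.MP_634427_lc.LD.Len
import Pool.Agent.Lib.MP_634427_lc.LD.ThinA
import Pool.Agent.Lib.MP_634427_lc.Y.WrapA
import Pool.Agent.Lib.MP_634427_lc.Y.WrapB

/-!
# The machine with a padded input
-/

namespace Pool.Agent.Lib.MP_634427_lc.Y

open Pool.Agent.Lib.MP_634427_lc LD

private lemma wmach_step {P : Par} {pd : Word → Word} {acc : Word × Word → Bool} {n1 : ℕ}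
    {tab : Word → Bool} {U : Set Word} {x : Word} (hx : n1 ≤ x.length) (s : St) :
    (wmach P pd acc n1 tab).step U (x, s) = (x, P.mach.step U s) := by
  have h : (wmach P pd acc n1 tab).ask (x, s) = P.mach.ask s := by
    simp only [wmach]
    exact if_pos hx
  unfold Mach.step
  rw [h]
  cases P.mach.ask s with
  | none => rfl
  | some q => rfl

private lemma wmach_iter {P : Par} {pd : Word → Word} {acc : Word × Word → Bool} {n1 : ℕ}
    {tab : Word → Bool} {U : Set Word} {x : Word} (hx : n1 ≤ x.length) (s : St) (i : ℕ) :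
    ((wmach P pd acc n1 tab).step U)^[i] (x, s) = (x, (P.mach.step U)^[i] s) := by
  induction i with
  | zero => rfl
  | succ i ih => rw [Function.iterate_succ_apply', ih, wmach_step hx, Function.iterate_succ_apply']

/-- A polynomial bound in the length of the input. -/
private lemma wmach_bd {pd : Word → Word} (hpd : PT pd) (a : ℕ) :
    ∃ b, ∀ x : Word, sz x + sz (pd x) + ((pd x).length + 2) ^ a + 10 ≤ (x.length + 2) ^ b := by
  obtain ⟨c, hc⟩ := hpd.size_le
  refine ⟨((2 * c + 2) * a + 2 * c + 4) + 2, fun x => ?_⟩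
  have hB : 2 ≤ x.length + 2 := by omega
  have h1 := sz_word_le x
  have h2 : sz x + 2 ≤ (x.length + 2) ^ 2 := by nlinarith
  have h3 : sz (pd x) ≤ (x.length + 2) ^ (2 * c) := by
    refine (hc x).trans ?_
    rw [Nat.pow_mul]
    exact Nat.pow_le_pow_left h2 c
  have h4 : (pd x).length ≤ sz (pd x) := length_le_sz (pd x)
  have hpos : 1 ≤ (x.length + 2) ^ (2 * c) := Nat.one_le_pow _ _ (by omega)
  have h5 : (pd x).length + 2 ≤ (x.length + 2) ^ (2 * c + 2) := by
    rw [Nat.pow_add]
    have h6 : 4 ≤ (x.length + 2) ^ 2 := by nlinarith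
    nlinarith [Nat.mul_le_mul_left ((x.length + 2) ^ (2 * c)) h6]
  have h7 : ((pd x).length + 2) ^ a ≤ (x.length + 2) ^ ((2 * c + 2) * a) := by
    rw [Nat.pow_mul]
    exact Nat.pow_le_pow_left h5 a
  have mono : ∀ k, k ≤ (2 * c + 2) * a + 2 * c + 4 →
      (x.length + 2) ^ k ≤ (x.length + 2) ^ ((2 * c + 2) * a + 2 * c + 4) :=
    fun k hk => Nat.pow_le_pow_right (by omega) hk
  have h8 := mono (2 * c) (by omega)
  have h9 := mono ((2 * c + 2) * a) (by omega)
  have h10 := mono 2 (by omega)
  have h11 := mono 4 (by omega)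
  have h12 : 16 ≤ (x.length + 2) ^ 4 := (show 16 = 2 ^ 4 by norm_num) ▸ Nat.pow_le_pow_left hB 4
  have h13 : (x.length + 2) ^ (((2 * c + 2) * a + 2 * c + 4) + 2) =
      (x.length + 2) ^ ((2 * c + 2) * a + 2 * c + 4) * (x.length + 2) ^ 2 := Nat.pow_add _ _ _
  have h14 : 4 ≤ (x.length + 2) ^ 2 := by nlinarith
  have h15 := Nat.mul_le_mul_left ((x.length + 2) ^ ((2 * c + 2) * a + 2 * c + 4)) h14
  rw [h13]
  omega

/-- The machine solves `Q`. Proof: as `Par.Good.solves` (file `LD/RunE.lean`): for `|x| < n1` the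
table; for the others `run` (in `Y/Core.lean`, namespace `Y`) for `y = pd x`,
`(wmach ..).step U (x, s) = (x, P.mach.step U s)`. The list `L` contains the first witness of `y`,
which exists; each `u ∈ L` that passes the test gives the right answer. The questions: if the
remaining number `c` is positive, then the question is `w2 ..` with `|π ++ [false]| ≤ N * R`, or
`w1 ..` with `V = L.take R`, `|D| = N * R`. -/
theorem wmach_solves {P : Par} (hP : P.IsPT) {E : Word × List Bool → Bool} (hc : Core P E)
    {U Q : Set Word} (hU : Answers E U) {pd : Word → Word} (hpd : PT pd)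
    {acc : Word × Word → Bool} {n1 : ℕ} {tab : Word → Bool}
    (htab : ∀ x : Word, x.length < n1 → (tab x = true ↔ x ∈ Q))
    (hn0 : ∀ x : Word, n1 ≤ x.length → P.n0 ≤ (pd x).length)
    (hex : ∀ x : Word, n1 ≤ x.length → ∃ u : Word, u.length = P.m (pd x) ∧ P.Rel (pd x, u) = true)
    (hacc : ∀ x u : Word, n1 ≤ x.length → u.length = P.m (pd x) → P.Rel (pd x, u) = true →
      (x ∈ Q ↔ acc (x, u) = true))
    (h2 : ∀ (x π : Word), n1 ≤ x.length → π.length ≤ P.N (pd x) * P.R (pd x) →
      ((w2 (P.s (pd x), (P.N (pd x), (P.R (pd x), π)))).length + 2) ^ 2 ≤ x.length + 2)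
    (h1 : ∀ (x : Word) (V : List Word) (D : Word) (i : ℕ), n1 ≤ x.length →
      V.length ≤ P.R (pd x) → (∀ v ∈ V, v.length ≤ P.m (pd x)) →
      D.length = P.N (pd x) * P.R (pd x) →
      ((w1 (q1 P.f (pd x) V (P.N (pd x)) (P.R (pd x)) (P.s1 (pd x)) D i)).length + 2) ^ 2 ≤
        x.length + 2) :
    (wmach P pd acc n1 tab).Solves Q U 1 := by
  obtain ⟨a, ha⟩ := exists_bd hP
  obtain ⟨b, hb⟩ := wmach_bd hpd a
  refine ⟨b, fun x => ?_⟩
  have hbx := hb x
  obtain ⟨haT, haS⟩ := ha (pd x)
  have hwini : (wmach P pd acc n1 tab).ini x = (x, P.mach.ini (pd x)) := rfl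
  rcases Nat.lt_or_ge x.length n1 with hx | hx
  · -- short words
    refine ⟨0, Nat.zero_le _, ?_, ?_, fun i hi => absurd hi (Nat.not_lt_zero i), ?_⟩
    · rw [Function.iterate_zero_apply, hwini]
      simp only [wmach]
      exact if_neg (Nat.not_le.2 hx)
    · rw [Function.iterate_zero_apply, hwini]
      have h : (wmach P pd acc n1 tab).out (x, P.mach.ini (pd x)) = tab x := by
        simp only [wmach]
        exact if_neg (Nat.not_le.2 hx)
      rw [h]
      exact htab x hx
    · intro i hi
      obtain rfl := Nat.le_zero.1 hi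
      rw [Function.iterate_zero_apply, hwini]
      refine le_trans ?_ hbx
      have hini : P.mach.ini (pd x) =
          (pd x, ([], ([[]], ([], if P.n0 ≤ (pd x).length then P.T (pd x) else 0)))) := rfl
      have h3 : (if P.n0 ≤ (pd x).length then P.T (pd x) else 0) ≤ P.T (pd x) := by
        split_ifs
        · exact le_rfl
        · exact Nat.zero_le _
      rw [hini]
      generalize (if P.n0 ≤ (pd x).length then P.T (pd x) else 0) = t at h3
      have h4 : sz ((x, (pd x, ([], ([[]], ([], t))))) : Word × St) ≤ sz x + sz (pd x) + t + 9 := by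
        rw [sz_pair, sz_pair, sz_pair, sz_pair, sz_pair, sz_cons]
        simp only [sz_lnil, sz_nat]
        omega
      omega
  · -- long words
    have hy := hn0 x hx
    obtain ⟨hreach, L, hL, D, α, hend⟩ := run hc hU hy
    refine ⟨P.T (pd x), haT.trans (by omega), ?_, ?_, ?_, ?_⟩
    · rw [hwini, wmach_iter hx, hend]
      simp only [wmach, Par.mach]
      rw [if_pos hx]
      exact if_pos trivial
    · rw [hwini, wmach_iter hx, hend]
      have h : (wmach P pd acc n1 tab).out (x, (pd x, (D, (L, (α, 0))))) =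
          L.any fun u => decide (u.length = P.m (pd x)) && P.Rel (pd x, u) && acc (x, u) := by
        simp only [wmach]
        exact if_pos hx
      rw [h, List.any_eq_true]
      constructor
      · rintro ⟨u, -, hu⟩
        rw [Bool.and_eq_true, Bool.and_eq_true, decide_eq_true_iff] at hu
        exact (hacc x u hx hu.1.1 hu.1.2).2 hu.2
      · intro hxQ
        obtain ⟨u, hu1, hu2, hu3⟩ := Small.exists_first (P.m (pd x))
          (fun w => P.Rel (pd x, w) = true) (hex x hx)
        refine ⟨u, hL u ⟨hu1, hu2, hu3⟩, ?_⟩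
        rw [Bool.and_eq_true, Bool.and_eq_true, decide_eq_true_iff]
        exact ⟨⟨hu1, hu2⟩, (hacc x u hx hu1 hu2).1 hxQ⟩
    · intro i hi
      rw [hwini, wmach_iter hx]
      have hask : ∀ s : St, (wmach P pd acc n1 tab).ask (x, s) = P.mach.ask s := by
        intro s
        simp only [wmach]
        exact if_pos hx
      rw [hask, pow_one]
      obtain ⟨g1, g2, g3, g4, g5, g6⟩ := hreach i hi.le
      generalize (P.mach.step U)^[i] (P.mach.ini (pd x)) = s at g1 g2 g3 g4 g5 g6
      obtain ⟨y', π, L', α', c⟩ := s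
      simp only at g1 g2 g3 g4 g5 g6
      subst g1
      have hc0 : c ≠ 0 := by omega
      by_cases hπ : π.length < P.N (pd x) * P.R (pd x)
      · refine ⟨w2 (P.s (pd x), (P.N (pd x), (P.R (pd x), π ++ [false]))), ?_, ?_⟩
        · simp only [Par.mach]
          rw [if_neg hc0, if_pos hπ]
        · exact h2 x _ hx (by
            rw [List.length_append, List.length_singleton]
            exact hπ)
      · refine ⟨w1 (q1 P.f (pd x) (L'.take (P.R (pd x))) (P.N (pd x)) (P.R (pd x)) (P.s1 (pd x)) π
          α'.length), ?_, ?_⟩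
        · simp only [Par.mach]
          rw [if_neg hc0, if_neg hπ]
        · exact h1 x _ _ _ hx (List.length_take_le _ _)
            (fun v hv => g4 v (List.mem_of_mem_take hv)) (by omega)
    · intro i hi
      rw [hwini, wmach_iter hx, sz_pair]
      have g := haS _ _ (Nat.sub_le _ _) (hreach i hi)
      omega

end Pool.Agent.Lib.MP_634427_lc.Y
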