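import Pool.Agent.Lib.MP_634427_lc.Y.Adv
import Pool.Agent.Lib.MP_634427_lc.Y.Low
import Pool.Agent.Lib.MP_634427_lc.Y.Par
import Pool.Agent.Lib.MP_634427_lc.Y.Arith2
import Pool.Agent.Lib.MP_634427_lc.Y.Wrap
import Pool.Agent.Lib.MP_634427_lc.LD.RecA
import Pool.Agent.Lib.MP_634427_lc.LD.RecB
import Pool.Agent.Lib.MP_634427_lc.LD.SetsA

/-!
# Density sublinear in the exponent of the witness length: P = NP
-/

namespace Pool.Agent.Lib.MP_634427_lc.Y

open Pool.Agent.Lib.MP_634427_lc LD

/-- The machine for a set in NP. -/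
theorem exists_solver {E : Word × List Bool → Bool} (hE : PT E) {q p : ℕ} (hpq : p < q)
    {S : Set Word} (hS : Sparse S)
    (hard : ∀ V : Word × Word → Bool, PT V → ∀ K : ℕ, ∃ c r, K ≤ c ∧ K * r ≤ c * q ∧
      LowReducible E q p r (Ver V c) S) (hco : ∀ L : Set Word, InNP L → InNP Lᶜ) {U : Set Word}
    (hU : Answers E U) (Q : Set Word) (hQ : InNP Q) :
    ∃ M : Mach (Word × St), M.IsPT ∧ M.Solves Q U 1 := by
  obtain ⟨V0, K0, hV0, hQV⟩ := exists_ver hQ
  obtain ⟨c0, r0, hc0, -, fQ, cQ, hfQ, hfQ'⟩ := hard V0 hV0 K0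
  rw [hQV c0 hc0] at hfQ'
  obtain ⟨Rel, m, z, hRel, hm, hz, hright, hex⟩ :=
    exists_advice hco hE hfQ hQ hS fun x => (hfQ' x).2.2
  obtain ⟨V, e, hV, hVA⟩ := exists_V hco hRel hm
  obtain ⟨c, r, hKc, hKr, hred⟩ := hard V hV (8 * (e + 1))
  obtain ⟨f, β, μ, C, hb⟩ := exists_bounds2 (by omega) hred
  have hA : ∀ (n j : ℕ) (rs : List Rule) (T : List Word),
      (n + 2) ^ (e + 1) ≤ ((padn n j).length + 2) ^ c →
      (code (enc ((padn n j, (rs, T)) : QA)) ∈ Ver V c ↔
        ∃ u, First Rel m (List.replicate n false) u ∧ mem1 T (route rs u) = true) := by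
    intro n j rs T h
    obtain ⟨h1, h2⟩ := hVA n j rs T
    constructor
    · rintro ⟨w, -, hw⟩
      exact h1 w hw
    · rintro ⟨u, hu, hT⟩
      refine h2 u _ hu hT ?_
      have h3 : (padn n j).length ≤ (code (enc ((padn n j, (rs, T)) : QA))).length := by
        rw [length_code]
        have h4 := length_le_sz (padn n j)
        have h5 : sz ((padn n j, (rs, T)) : QA) = sz (padn n j) + sz (rs, T) + 1 := sz_pair _ _
        have h6 : (enc ((padn n j, (rs, T)) : QA)).size = sz ((padn n j, (rs, T)) : QA) := rfl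
        omega
      exact (Nat.pow_le_pow_right (by omega) (Nat.le_succ e)).trans
        (h.trans (Nat.pow_le_pow_left (by omega) c))
  obtain ⟨P, hP, hcore, hPm, hw2, hw1⟩ := exists_par2 (c := c) hpq hRel hm hA hb
  obtain ⟨n1, hn1⟩ := arith3 q r C c (e + 1) P.n0 (by omega) (by omega) hKc hKr μ hb.powμ
  obtain ⟨tab, htab, htab'⟩ := exists_tab Q n1
  let pd : Word → Word := fun x =>
    padn x.length (LD.root (c / (e + 1)) x.length - ((bits x.length).length + 1))
  have hpd : PT pd := PT.append (PT.bitsLD (PT.length PT.id)) (PT.cons (PT.const true)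
    (PT.replicate (PT.sub (LD.pt_root _ (PT.length PT.id)) (PT.succ (PT.length
      (PT.bitsLD (PT.length PT.id))))) (PT.const false)))
  have hlen : ∀ x : Word, n1 ≤ x.length → (pd x).length = LD.root (c / (e + 1)) x.length := by
    intro x hx
    obtain ⟨-, h2, h3, -, -⟩ := hn1 x.length hx _ rfl
    have h4 := length_bits_le h3
    show (padn _ _).length = _
    rw [length_padn]
    omega
  have hokn : ∀ x : Word, n1 ≤ x.length →
      okn (e + 1) c (pd x) = true ∧ num c (pd x) = x.length := by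
    intro x hx
    refine okn_padn (by omega) ?_
    have h1 := hlen x hx
    change (padn _ _).length = _ at h1
    rw [h1]
    exact (hn1 x.length hx _ rfl).2.2.2.1
  have hn0 : ∀ x : Word, n1 ≤ x.length → P.n0 ≤ (pd x).length := by
    intro x hx
    rw [hlen x hx]
    exact (hn1 x.length hx _ rfl).1
  have hPr : ∀ x u : Word, n1 ≤ x.length → P.m (pd x) = m (List.replicate x.length false) ∧
      P.Rel (pd x, u) = Rel (List.replicate x.length false, u) := by
    intro x u hx
    have h1 := hPm (pd x) u (hokn x hx).1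
    rwa [(hokn x hx).2] at h1
  let acc : Word × Word → Bool := fun q =>
    E ((fQ q.1).1, (fQ q.1).2.map (mem1 (z (List.replicate q.1.length false, q.2))))
  have hacc : PT acc := by
    have hx : PT fun q : Word × Word => fQ q.1 := hfQ.comp PT.fst
    have hzz : PT fun q : Word × Word => z (List.replicate q.1.length false, q.2) :=
      hz.comp (PT.pair (PT.replicate (PT.length PT.fst) (PT.const false)) PT.snd)
    exact PT.evLD hE hzz hx
  refine ⟨wmach P pd acc n1 tab, wmach_pt hP hpd hacc n1 htab,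
    wmach_solves hP hcore hU hpd htab' hn0 ?_ ?_ ?_ ?_⟩
  · intro x hx
    obtain ⟨u, hu, hR⟩ := hex (List.replicate x.length false)
    obtain ⟨h1, h2⟩ := hPr x u hx
    exact ⟨u, by rw [h1]; exact hu, by rw [h2]; exact hR⟩
  · intro x u hx hu hR
    obtain ⟨h1, h2⟩ := hPr x u hx
    rw [h1] at hu
    rw [h2] at hR
    have h3 := hright _ _ hu hR
    rw [List.length_replicate] at h3
    exact h3 x le_rfl
  · intro x π hx hπ
    have h6 := hw2 (pd x) π (hn0 x hx) hπ
    rw [hlen x hx] at h6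
    exact (hn1 x.length hx _ rfl).2.2.2.2 _ h6
  · intro x V' D i hx hV' hv hD
    have h6 := hw1 (pd x) V' D i (hn0 x hx) hV' hv hD
    rw [hlen x hx] at h6
    exact (hn1 x.length hx _ rfl).2.2.2.2 _ h6

/-- P = NP. -/
theorem inP_of_hard {E : Word × List Bool → Bool} (hE : PT E) {q p : ℕ} (hpq : p < q)
    {S : Set Word} (hS : Sparse S)
    (hard : ∀ V : Word × Word → Bool, PT V → ∀ K : ℕ, ∃ c r, K ≤ c ∧ K * r ≤ c * q ∧
      LowReducible E q p r (Ver V c) S) (L : Set Word) (hL : InNP L) : InP L := by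
  have hco : ∀ L : Set Word, InNP L → InNP Lᶜ := by
    refine Small.coNP_of_small (q - 1) S hS fun A hA => ?_
    obtain ⟨V0, K0, hV0, hAV⟩ := exists_ver hA
    obtain ⟨c0, r0, hc0, -, f, c, hf, h⟩ := hard V0 hV0 K0
    rw [hAV c0 hc0] at h
    refine ⟨f, fun e l => E (e, l) = true, c, hf, fun x => ?_, fun x => (h x).2.2⟩
    have h1 := (h x).1
    rw [Nat.sub_add_cancel (by omega)]
    exact h1.trans (Nat.mul_le_mul_left _ (Nat.pow_le_pow_right (by omega) (by omega)))
  obtain ⟨U, hU, hUA⟩ := exists_answers hco hE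
  obtain ⟨M, hM, hMs⟩ := exists_solver hE hpq hS hard hco hUA U hU
  obtain ⟨M', hM', hMs'⟩ := exists_solver hE hpq hS hard hco hUA L hL
  exact hMs'.inP hM' (hMs.self hM)

end Pool.Agent.Lib.MP_634427_lc.Y
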