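import Pool.Agent.Lib.MP_634427_lc.LD.NpB

/-!
# Existential questions about words of bounded length with a condition in NP
-/

namespace Pool.Agent.Lib.MP_634427_lc.Y

open Pool.Agent.Lib.MP_634427_lc
open Pool.Agent.Lib.MP_634427_lc.LD

/-- The word given by `u`: the first `n` letters of `u` tell its length. -/
private def sub (n : ℕ) (u : Word) : Word :=
  (u.drop n).take ((u.take n).filter fun b => b).length

private lemma length_sub (n : ℕ) (u : Word) : (sub n u).length ≤ n := by
  unfold sub
  rw [List.length_take]
  refine (min_le_left _ _).trans ((List.length_filter_le _ _).trans ?_)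
  rw [List.length_take]
  exact min_le_left _ _

private lemma exists_sub {n : ℕ} {x : Word} (hx : x.length ≤ n) :
    ∃ u : Word, u.length = n + n ∧ sub n u = x := by
  refine ⟨(List.replicate x.length true ++ List.replicate (n - x.length) false) ++
    (x ++ List.replicate (n - x.length) false), ?_, ?_⟩
  · simp only [List.length_append, List.length_replicate]
    omega
  · have h1 : (List.replicate x.length true ++ List.replicate (n - x.length) false).length = n := by
      simp only [List.length_append, List.length_replicate]
      omega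
    unfold sub
    rw [List.drop_left' h1, List.take_left' h1, List.filter_append]
    simp

/-- Existential questions about words of bounded length with a condition in NP. -/
theorem np_ex_le {α : Type} [Enc α] (F : Set Word) (hF : InNP F) (G : α × Word → Bool)
    (g : α × Word → Word) (m : α → ℕ) (hG : PT G) (hg : PT g) (hm : PT m) :
    ∃ A : Set Word, InNP A ∧ ∀ a, code (enc a) ∈ A ↔
      ∃ x : Word, x.length ≤ m a ∧ G (a, x) = true ∧ g (a, x) ∈ F := by
  have hs : PT fun c : α × Word => (c.1, sub (m c.1) c.2) :=
    PT.pair PT.fst (PT.take (PT.length (PT.filter (p := fun (_ : α × Word) (b : Bool) => b)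
      (PT.take (hm.comp PT.fst) PT.snd) PT.snd)) (PT.drop (hm.comp PT.fst) PT.snd))
  obtain ⟨A, hA, h⟩ := np_ex F hF (fun c => G (c.1, sub (m c.1) c.2))
    (fun c => g (c.1, sub (m c.1) c.2)) (fun a => m a + m a) (hG.comp hs) (hg.comp hs)
    (PT.add hm hm)
  refine ⟨A, hA, fun a => (h a).trans ⟨?_, ?_⟩⟩
  · rintro ⟨u, -, h1, h2⟩
    exact ⟨_, length_sub _ _, h1, h2⟩
  · rintro ⟨x, hx, h1, h2⟩
    obtain ⟨u, hu, rfl⟩ := exists_sub hx
    exact ⟨u, hu, h1, h2⟩

end Pool.Agent.Lib.MP_634427_lc.Y
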