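import Pool.Agent.Lib.MP_634427_lc.LD.Bits
import Pool.Agent.Lib.MP_634427_lc.LD.Model

/-!
# Right lists
-/

namespace Pool.Agent.Lib.MP_634427_lc.Y

open Pool.Agent.Lib.MP_634427_lc
open Pool.Agent.Lib.MP_634427_lc.LD

/-- The list `Z` of words gives the right answers for all words of length at most `n`. -/
def Right (E : Word × List Bool → Bool) (f : Word → Word × List Word) (A : Set Word) (n : ℕ)
    (Z : List Word) : Prop :=
  ∀ x : Word, x.length ≤ n → (x ∈ A ↔ E ((f x).1, (f x).2.map fun w => mem1 Z w) = true)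

end Pool.Agent.Lib.MP_634427_lc.Y
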