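import Pool.Agent.Lib.MP_634427_lc.Y.Right
import Pool.Agent.Lib.MP_634427_lc.Y.NpEx
import Pool.Agent.Lib.MP_634427_lc.LD.NpC
import Pool.Agent.Lib.MP_634427_lc.LD.RoutePT

/-!
# The set of the right lists is in NP
-/

namespace Pool.Agent.Lib.MP_634427_lc.Y

open Pool.Agent.Lib.MP_634427_lc
open Pool.Agent.Lib.MP_634427_lc.LD

/-- The set of the right lists is in NP (if NP is closed under complements). -/
theorem exists_rightSet (hco : ∀ L : Set Word, InNP L → InNP Lᶜ)
    {E : Word × List Bool → Bool} (hE : PT E) {f : Word → Word × List Word} (hf : PT f)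
    {A : Set Word} (hA : InNP A) (D : ℕ) :
    ∃ F : Set Word, InNP F ∧ ∀ (y : Word) (Z : List Word),
      code (enc (y, Z)) ∈ F ↔ Right E f A (y.length ^ D) Z := by
  have hv : PT fun c : (Word × List Word) × Word =>
      E ((f c.2).1, (f c.2).2.map fun w => mem1 c.1.2 w) :=
    hE.comp (PT.pair (PT.fst' (hf.comp PT.snd))
      (PT.map (f := fun (c : (Word × List Word) × Word) (w : Word) => mem1 c.1.2 w)
        (PT.snd' (hf.comp PT.snd)) (PT.mem1LD (PT.snd' (PT.fst' PT.fst)) PT.snd)))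
  obtain ⟨W, hW, hWd⟩ := np_ex_le _ (np_union (hco A hA) hA)
    (fun _ : (Word × List Word) × Word => true)
    (fun c => E ((f c.2).1, (f c.2).2.map fun w => mem1 c.1.2 w) :: c.2)
    (fun a => a.1.length ^ D) (PT.const true) (PT.cons hv PT.snd)
    (PT.pow (PT.length PT.fst) D)
  refine ⟨Wᶜ, hco W hW, fun y Z => ?_⟩
  rw [Set.mem_compl_iff, hWd (y, Z)]
  unfold Right
  constructor
  · intro h x hx
    by_contra hcon
    refine h ⟨x, hx, rfl, ?_⟩
    show E ((f x).1, (f x).2.map fun w => mem1 Z w) :: x ∈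
      {w | (∃ v, w = true :: v ∧ v ∈ Aᶜ) ∨ ∃ v, w = false :: v ∧ v ∈ A}
    by_cases hx1 : x ∈ A
    · have h2 : E ((f x).1, (f x).2.map fun w => mem1 Z w) = false := by
        by_contra h3
        rw [Bool.not_eq_false] at h3
        exact hcon ⟨fun _ => h3, fun _ => hx1⟩
      rw [h2]
      exact Or.inr ⟨x, rfl, hx1⟩
    · have h2 : E ((f x).1, (f x).2.map fun w => mem1 Z w) = true := by
        by_contra h3
        exact hcon ⟨fun h4 => absurd h4 hx1, fun h4 => absurd h4 h3⟩
      rw [h2]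
      exact Or.inl ⟨x, rfl, hx1⟩
  · rintro h ⟨x, hx, -, hx2⟩
    have h1 := h x hx
    rcases hx2 with ⟨v, hv1, hv2⟩ | ⟨v, hv1, hv2⟩
    · obtain ⟨h3, h4⟩ := List.cons.inj hv1
      rw [← h4] at hv2
      exact hv2 (h1.2 h3)
    · obtain ⟨h3, h4⟩ := List.cons.inj hv1
      rw [← h4] at hv2
      have h5 := h1.1 hv2
      change E ((f x).1, (f x).2.map fun w => mem1 Z w) = false at h3
      rw [h3] at h5
      exact absurd h5 Bool.false_ne_true

end Pool.Agent.Lib.MP_634427_lc.Y
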