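import Pool.Agent.Lib.MP_634427_lc.Y.AskGen
import Pool.Agent.Lib.MP_634427_lc.LD.BitsPT

/-!
# One relation for the questions about the advice, with short instances
-/

namespace Pool.Agent.Lib.MP_634427_lc.Y

open Pool.Agent.Lib.MP_634427_lc
open Pool.Agent.Lib.MP_634427_lc.LD

/-- The numeral of `n`, padded. -/
def padn (n j : ℕ) : Word := bits n ++ true :: List.replicate j false

/-- The test for the padded numeral of `i`. -/
def isPad (y : Word) (i : ℕ) : Bool := decide (y = padn i (y.length - ((bits i).length + 1)))

lemma isPad_padn (n j : ℕ) : isPad (padn n j) n = true := by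
  have : (padn n j).length - ((bits n).length + 1) = j := by
    unfold padn
    rw [List.length_append, List.length_cons, List.length_replicate]
    omega
  unfold isPad
  rw [this, decide_eq_true_eq]

private lemma padn_aux {u v : Word} {j k : ℕ}
    (h : u ++ true :: List.replicate j false = v ++ true :: List.replicate k false)
    (hlt : u.length < v.length) : False := by
  have h1 := congrArg (fun l : Word => l.getD v.length false) h
  beta_reduce at h1
  rw [List.getD_append_right _ _ _ _ hlt.le, List.getD_append_right _ _ _ _ le_rfl,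
    Nat.sub_self] at h1
  obtain ⟨d, hd⟩ : ∃ d, v.length - u.length = d + 1 := ⟨v.length - u.length - 1, by omega⟩
  rw [hd, List.getD_cons_succ, List.getD_cons_zero] at h1
  have h2 : (List.replicate j false).getD d false = false := by
    rcases Nat.lt_or_ge d j with hj | hj
    · rw [List.getD_eq_getElem _ _ (by simpa using hj)]
      simp
    · rw [List.getD_eq_default _ _ (by simpa using hj)]
  rw [h2] at h1
  exact Bool.false_ne_true h1

lemma padn_inj {n i j k : ℕ} (h : padn n j = padn i k) : n = i := by
  unfold padn at h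
  rcases Nat.lt_trichotomy (bits n).length (bits i).length with h1 | h1 | h1
  · exact (padn_aux h h1).elim
  · exact bits_injective (List.append_inj h h1).1
  · exact (padn_aux h.symm h1).elim

lemma isPad_iff {n i j : ℕ} : isPad (padn n j) i = true ↔ i = n := by
  constructor
  · intro h
    unfold isPad at h
    rw [decide_eq_true_eq] at h
    exact (padn_inj h).symm
  · rintro rfl
    exact isPad_padn _ _

lemma pt_isPad {γ : Type} [Enc γ] {y : γ → Word} {i : γ → ℕ} (hy : PT y) (hi : PT i) :
    PT fun c => isPad (y c) (i c) :=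
  PT.eqWord hy (PT.append (PT.bitsLD hi) (PT.cons (PT.const true) (PT.replicate
    (PT.sub (PT.length hy) (PT.succ (PT.length (PT.bitsLD hi)))) (PT.const false))))

/-- One relation for the questions about the first witness for the word `0^n`; the instances contain
only the padded numeral of `n`. -/
theorem exists_V (hco : ∀ L : Set Word, InNP L → InNP Lᶜ) {Rel : Word × Word → Bool}
    {m : Word → ℕ} (hRel : PT Rel) (hm : PT m) :
    ∃ (V : Word × Word → Bool) (c2 : ℕ), PT V ∧ ∀ (n j : ℕ) (rs : List Rule) (T : List Word),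
      (∀ w : Word, V (code (enc ((padn n j, (rs, T)) : QA)), w) = true →
        ∃ u, First Rel m (List.replicate n false) u ∧ mem1 T (route rs u) = true) ∧
      ∀ (u : Word) (W : ℕ), First Rel m (List.replicate n false) u →
        mem1 T (route rs u) = true → (n + 2) ^ c2 ≤ W →
        ∃ w : Word, w.length = W ∧ V (code (enc ((padn n j, (rs, T)) : QA)), w) = true := by
  obtain ⟨F, hF, hF'⟩ := exists_noEarlier hco hRel hm
  obtain ⟨Rel2, m2, hRel2, hm2, hF2⟩ := Small.exists_rel hF
  obtain ⟨d, hd, hda⟩ : Small.HasDec QA :=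
    Small.hasDec_prod (Small.hasDec_list Small.hasDec_bool)
      (Small.hasDec_prod (Small.hasDec_list (Small.hasDec_prod
        (Small.hasDec_list Small.hasDec_bool) (Small.hasDec_prod
        (Small.hasDec_list Small.hasDec_bool) (Small.hasDec_prod Small.hasDec_bool
        (Small.hasDec_list Small.hasDec_bool)))))
        (Small.hasDec_list (Small.hasDec_list Small.hasDec_bool)))
  let t : ℕ → Word := fun i => List.replicate i false
  let g : Word × Word → Word := fun c => code (enc (c.1, c.2))
  have henc : PT (fun a : Word × Word => (enc a : BT)) := ⟨_, .id, fun _ => rfl⟩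
  have hg : PT g := PT.code (henc.comp (PT.pair PT.fst PT.snd))
  -- the test for `i`
  let chk : QA → Word → ℕ → Bool := fun a w i =>
    (isPad a.1 i && decide (m (t i) + m2 (g (t i, w.take (m (t i)))) ≤ w.length)) &&
    ((Rel (t i, w.take (m (t i))) &&
      Rel2 (g (t i, w.take (m (t i))),
        (w.drop (m (t i))).take (m2 (g (t i, w.take (m (t i))))))) &&
      mem1 a.2.2 (route a.2.1 (w.take (m (t i)))))
  have hchk : PT fun c : (QA × Word) × ℕ => chk c.1.1 c.1.2 c.2 := by
    have hi : PT fun c : (QA × Word) × ℕ => c.2 := PT.snd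
    have hw : PT fun c : (QA × Word) × ℕ => c.1.2 := PT.snd' PT.fst
    have ha : PT fun c : (QA × Word) × ℕ => c.1.1 := PT.fst' PT.fst
    have ht : PT fun c : (QA × Word) × ℕ => t c.2 := PT.replicate hi (PT.const false)
    have hmt : PT fun c : (QA × Word) × ℕ => m (t c.2) := hm.comp ht
    have hu : PT fun c : (QA × Word) × ℕ => c.1.2.take (m (t c.2)) := PT.take hmt hw
    have hgu : PT fun c : (QA × Word) × ℕ => g (t c.2, c.1.2.take (m (t c.2))) :=
      hg.comp (PT.pair ht hu)
    have hm2u := hm2.comp hgu
    exact PT.and (PT.and (pt_isPad (PT.fst' ha) hi) (PT.le (PT.add hmt hm2u) (PT.length hw)))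
      (PT.and (PT.and (hRel.comp (PT.pair ht hu))
        (hRel2.comp (PT.pair hgu (PT.take hm2u (PT.drop hmt hw)))))
        (PT.mem1LD (PT.snd' (PT.snd' ha)) (PT.routeLD (PT.fst' (PT.snd' ha)) hu)))
  let V : Word × Word → Bool := fun p =>
    (List.range (p.2.length + 1)).any fun i => chk (d (decode p.1)) p.2 i
  have hV : PT V := by
    have h1 : PT fun p : Word × Word => d (decode p.1) := hd.comp (PT.decode PT.fst)
    exact PT.any (p := fun (p : Word × Word) (i : ℕ) => chk (d (decode p.1)) p.2 i)
      (PT.range (PT.succ (PT.length PT.snd)))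
      (hchk.comp (PT.pair (PT.pair (h1.comp PT.fst) (PT.snd' PT.fst)) PT.snd))
  have hVi : ∀ (a : QA) (w : Word), V (code (enc a), w) = true ↔
      ∃ i < w.length + 1, chk a w i = true := by
    intro a w
    have h1 : d (decode (code (enc a))) = a := by rw [decode_code, hda]
    show (List.range (w.length + 1)).any (fun i => chk (d (decode (code (enc a)))) w i) = true ↔ _
    rw [h1, List.any_eq_true]
    simp only [List.mem_range]
  -- the bound
  obtain ⟨k1, hk1⟩ := hm.size_le
  obtain ⟨k2, hk2⟩ := hm2.size_le
  obtain ⟨k3, hk3⟩ := hg.size_le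
  have hb1 : ∀ i, m (t i) ≤ (2 * i + 2) ^ k1 := by
    intro i
    have h1 := hk1 (t i)
    rw [sz_nat] at h1
    refine h1.trans (Nat.pow_le_pow_left ?_ _)
    have h2 := sz_word_le (t i)
    have h3 : (t i).length = i := List.length_replicate
    omega
  have hb2 : ∀ i (u : Word), u.length = m (t i) →
      m2 (g (t i, u)) ≤ ((2 * i + 2 * (2 * i + 2) ^ k1 + 1 + 2) ^ k3 + 2) ^ k2 := by
    intro i u hu
    have h1 := hk2 (g (t i, u))
    rw [sz_nat] at h1
    refine h1.trans (Nat.pow_le_pow_left (Nat.add_le_add_right ?_ 2) _)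
    refine (hk3 (t i, u)).trans (Nat.pow_le_pow_left (Nat.add_le_add_right ?_ 2) _)
    have h2 := sz_word_le (t i)
    have h3 : (t i).length = i := List.length_replicate
    have h4 := sz_word_le u
    have h5 := hb1 i
    rw [sz_pair]
    omega
  obtain ⟨c2, hc2⟩ : PB fun n => (2 * n + 2) ^ k1 +
      ((2 * n + 2 * (2 * n + 2) ^ k1 + 1 + 2) ^ k3 + 2) ^ k2 + n := by
    have e1 : PB fun n => 2 * n := PB.mul (PB.const 2) PB.id
    have e2 : PB fun n => (2 * n + 2) ^ k1 := PB.pow (PB.add e1 (PB.const 2)) k1
    exact PB.add (PB.add e2 (PB.pow (PB.add (PB.pow (PB.add (PB.add (PB.add e1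
      (PB.mul (PB.const 2) e2)) (PB.const 1)) (PB.const 2)) k3) (PB.const 2)) k2)) PB.id
  refine ⟨V, c2, hV, fun n j rs T => ⟨fun w hw => ?_, fun u W hu hT hW => ?_⟩⟩
  · obtain ⟨i, -, hi⟩ := (hVi _ _).1 hw
    simp only [chk, Bool.and_eq_true, decide_eq_true_eq] at hi
    obtain ⟨⟨h1, h2⟩, ⟨h3, h4⟩, h5⟩ := hi
    obtain rfl := isPad_iff.1 h1
    have hl : (w.take (m (t i))).length = m (t i) := by
      rw [List.length_take]
      exact min_eq_left (by omega)
    refine ⟨w.take (m (t i)), ⟨hl, h3, ?_⟩, h5⟩
    refine (hF' _ _).1 ((hF2 _).2 ⟨_, ?_, h4⟩)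
    rw [List.length_take, List.length_drop]
    exact min_eq_left (by omega)
  · obtain ⟨hu1, hu2, hu3⟩ := hu
    have hu1' : u.length = m (t n) := hu1
    obtain ⟨v, hv1, hv2⟩ := (hF2 _).1 ((hF' _ _).2 hu3)
    have hv1' : v.length = m2 (g (t n, u)) := hv1
    have hb := hb2 n u hu1'
    have hb' := hb1 n
    have hbn := hc2 n
    beta_reduce at hbn
    refine ⟨u ++ (v ++ List.replicate (W - (u.length + v.length)) false), ?_, ?_⟩
    · simp only [List.length_append, List.length_replicate]
      omega
    · refine (hVi _ _).2 ⟨n, ?_, ?_⟩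
      · simp only [List.length_append, List.length_replicate]
        omega
      · have htk : (u ++ (v ++ List.replicate (W - (u.length + v.length)) false)).take
            (m (t n)) = u := by
          rw [← hu1', List.take_left' rfl]
        have hdr : (u ++ (v ++ List.replicate (W - (u.length + v.length)) false)).drop
            (m (t n)) = v ++ List.replicate (W - (u.length + v.length)) false := by
          rw [← hu1', List.drop_left' rfl]
        simp only [chk, Bool.and_eq_true, decide_eq_true_eq]
        rw [htk, hdr, ← hv1', List.take_left' rfl]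
        refine ⟨⟨isPad_padn n j, ?_⟩, ⟨hu2, hv2⟩, hT⟩
        simp only [List.length_append, List.length_replicate]
        omega

end Pool.Agent.Lib.MP_634427_lc.Y
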